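import Pool.Agent.Lib_helper20.LG.Model

/-!
# Points that avoid affine subspaces

The input consists of `L` points of `{0,1}^n` and of `5 n ^ 2` systems of about `2 log n` linear
equations over the field with two elements. The variables of the first kind are the coefficients, the
variables of the second kind are the bits of the points.
-/

namespace Pool.Agent.Lib_helper26.AC

open Finset Pool.Agent.Lib_helper20.SRO

/-- The point is in none of the affine subspaces. -/
def off {n d T : ℕ} (M : Fin T → Fin d → Fin n → Bool) (s : Fin T → Fin d → Bool)
    (b : Fin n → Bool) : Bool := decide (∀ t, inSub (M t) (s t) b = false)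

/-- The coefficients and the right sides of the equations. -/
abbrev Coef (n : ℕ) : Type :=
  (Fin (subs n) × Fin (codim n) × Fin n) ⊕ (Fin (subs n) × Fin (codim n))

/-- The input variables: coefficients and right sides of the equations, `L` points. -/
abbrev VarB (n L : ℕ) : Type := Coef n ⊕ (Fin L × Fin n)

/-- None of the `L` points is in one of the subspaces. -/
def offF (n L : ℕ) (v : VarB n L → Bool) : Bool :=
  decide (∀ l : Fin L, off (fun t i j => v (Sum.inl (Sum.inl (t, i, j))))
    (fun t i => v (Sum.inl (Sum.inr (t, i)))) (fun j => v (Sum.inr (l, j))) = true)

/-- The program computes `f` on the inputs in which the variables of the first kind have the values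
`c`. -/
def ComputesAt {W X N : Type} (G : NBP (W ⊕ X) N) (c : W → Bool) (f : (W ⊕ X → Bool) → Bool) :
    Prop := ∀ b : X → Bool, G.Accepts (Sum.elim c b) ↔ f (Sum.elim c b) = true

/-- Every accepted input, in which the variables of the first kind have the values `c`, has an
accepting walk with at most `m` tests of variables of the second kind. -/
def FewTestsAt {W X N : Type} (G : NBP (W ⊕ X) N) (c : W → Bool) (m : ℕ) : Prop :=
  ∀ b : X → Bool, G.Accepts (Sum.elim c b) → ∃ l, Walk G G.source G.sink l ∧
    Agrees (Sum.elim c b) l ∧ l.countP (fun p => p.1.isRight) ≤ m

/-- At most `a` access patterns: for every input, in which the variables of the first kind have the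
values `c`, and any two nodes, the walks between them all of whose tests the input passes have at
most `a` different sets of tested variables of the second kind. -/
def AccessPatternsAt {W X N : Type} (G : NBP (W ⊕ X) N) (c : W → Bool) (a : ℕ) : Prop :=
  ∀ (b : X → Bool) (u v : N), {S : Set X | ∃ l, Walk G u v l ∧ Agrees (Sum.elim c b) l ∧
    S = {x | ∃ e, (Sum.inr x, e) ∈ l}}.encard ≤ a

end Pool.Agent.Lib_helper26.AC
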