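import Pool.Agent.Lib_helper20.LG.ComplA
import Pool.Agent.Lib_helper26.AC.Model

/-!
Small syntactic read-once programs with one access pattern for the complement of `offF` (after the
module ComplA of helper25).
-/

namespace Pool.Agent.Lib_helper26.AC

open Finset Pool.Agent.Lib_helper20.SRO Pool.Agent.Lib_helper45.SRO Pool.Agent.Lib_helper20.LG

/-! ### the order -/

variable {n L : ℕ}

/-- a bit of a point -/
abbrev qb (l : Fin L) (j : Fin n) : VarB n L := Sum.inr (l, j)
/-- a coefficient -/
abbrev qm (t : Fin (subs n)) (i : Fin (codim n)) (j : Fin n) : VarB n L :=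
  Sum.inl (Sum.inl (t, i, j))
/-- a right side -/
abbrev qs (t : Fin (subs n)) (i : Fin (codim n)) : VarB n L := Sum.inl (Sum.inr (t, i))

/-- the bits with number `j` of all points and the coefficients of this variable -/
def bkB (L : ℕ) (t : Fin (subs n)) (j : Fin n) : List (VarB n L) :=
  (List.finRange L).map (fun l => qb l j) ++ (List.finRange (codim n)).map (fun i => qm t i j)

/-- the order of the automaton `t` -/
def ordB (L : ℕ) (t : Fin (subs n)) : List (VarB n L) :=
  (List.finRange (codim n)).map (fun i => qs t i) ++ (List.finRange n).flatMap (bkB L t)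

theorem length_ordB (t : Fin (subs n)) :
    (ordB L t).length = codim n + n * (L + codim n) := by
  rw [ordB, List.length_append, List.length_map, List.length_finRange, List.length_flatMap]
  congr 1
  have : (fun j => (bkB L t j).length) = fun _ : Fin n => L + codim n := by
    funext j
    simp [bkB]
  rw [this]
  simp

theorem mem_bkB {t : Fin (subs n)} {j : Fin n} {x : VarB n L} :
    x ∈ bkB L t j ↔ (∃ l, x = qb l j) ∨ ∃ i, x = qm t i j := by
  unfold bkB
  rw [List.mem_append, List.mem_map, List.mem_map]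
  refine or_congr ?_ ?_
  · constructor
    · rintro ⟨i, _, rfl⟩
      exact ⟨i, rfl⟩
    · rintro ⟨i, rfl⟩
      exact ⟨i, List.mem_finRange _, rfl⟩
  · constructor
    · rintro ⟨i, _, rfl⟩
      exact ⟨i, rfl⟩
    · rintro ⟨i, rfl⟩
      exact ⟨i, List.mem_finRange _, rfl⟩

theorem nodup_bkB (t : Fin (subs n)) (j : Fin n) : (bkB L t j).Nodup := by
  unfold bkB
  rw [List.nodup_append]
  refine ⟨(List.nodup_finRange _).map ?_, (List.nodup_finRange _).map ?_, ?_⟩
  · intro i i' h
    simp only [Sum.inr.injEq, Prod.mk.injEq] at h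
    exact h.1
  · intro i i' h
    simp only [Sum.inl.injEq, Prod.mk.injEq] at h
    exact h.2.1
  · intro x hx y hy hxy
    subst hxy
    obtain ⟨l, _, rfl⟩ := List.mem_map.1 hx
    obtain ⟨i, _, h⟩ := List.mem_map.1 hy
    simp at h

theorem nodup_flatB (t : Fin (subs n)) {J : List (Fin n)} (hJ : J.Nodup) :
    (J.flatMap (bkB L t)).Nodup := by
  induction J with
  | nil => simp
  | cons j J ih =>
    rw [List.nodup_cons] at hJ
    rw [List.flatMap_cons, List.nodup_append]
    refine ⟨nodup_bkB t j, ih hJ.2, ?_⟩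
    intro x hx y hy hxy
    subst hxy
    obtain ⟨j', hj', hx'⟩ := List.mem_flatMap.1 hy
    rw [mem_bkB] at hx hx'
    rcases hx with ⟨l, rfl⟩ | ⟨i, rfl⟩
    · rcases hx' with ⟨l', h⟩ | ⟨i, h⟩
      · simp only [Sum.inr.injEq, Prod.mk.injEq] at h
        rw [h.2] at hJ
        exact hJ.1 hj'
      · simp at h
    · rcases hx' with ⟨l', h⟩ | ⟨i', h⟩
      · simp at h
      · simp only [Sum.inl.injEq, Prod.mk.injEq] at h
        rw [h.2.2] at hJ
        exact hJ.1 hj'

theorem nodup_ordB (t : Fin (subs n)) : (ordB L t).Nodup := by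
  rw [ordB, List.nodup_append]
  refine ⟨(List.nodup_finRange _).map ?_, nodup_flatB t (List.nodup_finRange n), ?_⟩
  · intro i i' h
    simp only [Sum.inl.injEq, Sum.inr.injEq, Prod.mk.injEq] at h
    exact h.2
  · intro x hx y hy hxy
    subst hxy
    obtain ⟨i, _, rfl⟩ := List.mem_map.1 hx
    obtain ⟨j, _, hx'⟩ := List.mem_flatMap.1 hy
    rw [mem_bkB] at hx'
    rcases hx' with ⟨l, h⟩ | ⟨i', h⟩
    · simp at h
    · simp at h

theorem pat_bkB (t t' : Fin (subs n)) (j : Fin n) :
    (bkB L t j).map rt = (bkB L t' j).map rt := by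
  unfold bkB
  rw [List.map_append, List.map_append, List.map_map, List.map_map, List.map_map]
  rfl

theorem pat_ordB (t t' : Fin (subs n)) : (ordB L t).map rt = (ordB L t').map rt := by
  unfold ordB
  rw [List.map_append, List.map_append, List.map_map, List.map_map]
  have h : ∀ J : List (Fin n), (J.flatMap (bkB L t)).map rt = (J.flatMap (bkB L t')).map rt := by
    intro J
    induction J with
    | nil => rfl
    | cons j J ih =>
      rw [List.flatMap_cons, List.flatMap_cons, List.map_append, List.map_append, ih,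
        pat_bkB t t' j]
  rw [h]
  rfl

/-! ### the automata -/

/-- the step of the automaton for the point `l`: the last bit of the point is held -/
def stB (l : Fin L) (q : StA n) (x : VarB n L) (c : Bool) : StA n :=
  match x with
  | Sum.inr (l', _) => (q.1, if l' = l then bz c else q.2)
  | Sum.inl (Sum.inl (_, i, _)) => (fun i' => if i' = i then q.1 i' + bz c * q.2 else q.1 i', q.2)
  | Sum.inl (Sum.inr (_, i)) => (fun i' => if i' = i then q.1 i' + bz c else q.1 i', q.2)

theorem foldB_s (l : Fin L) (v : VarB n L → Bool) (t : Fin (subs n)) {K : List (Fin (codim n))}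
    (hK : K.Nodup) : ∀ (R : Fin (codim n) → ZMod 2) (p : ZMod 2),
    (K.map (fun i => qs t i)).foldl (fun q x => stB l q x (v x)) (R, p) =
      ((fun i => if i ∈ K then R i + bz (v (qs t i)) else R i), p) := by
  induction K with
  | nil => intro R p; simp
  | cons i0 K ih =>
    intro R p
    rw [List.nodup_cons] at hK
    rw [List.map_cons, List.foldl_cons]
    have e : stB l (R, p) (qs t i0) (v (qs t i0)) =
      (fun i' => if i' = i0 then R i' + bz (v (qs t i0)) else R i', p) := rfl
    rw [e, ih hK.2]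
    congr 1
    funext i
    by_cases hi : i = i0
    · subst hi
      rw [if_neg hK.1, if_pos List.mem_cons_self, if_pos rfl]
    · have h1 : (i ∈ i0 :: K) ↔ i ∈ K := by
        rw [List.mem_cons]
        exact ⟨fun h => h.resolve_left hi, Or.inr⟩
      simp only [hi, if_false, h1]

theorem foldB_m (l : Fin L) (v : VarB n L → Bool) (t : Fin (subs n)) (j : Fin n)
    {K : List (Fin (codim n))} (hK : K.Nodup) : ∀ (R : Fin (codim n) → ZMod 2) (p : ZMod 2),
    (K.map (fun i => qm t i j)).foldl (fun q x => stB l q x (v x)) (R, p) =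
      ((fun i => if i ∈ K then R i + bz (v (qm t i j)) * p else R i), p) := by
  induction K with
  | nil => intro R p; simp
  | cons i0 K ih =>
    intro R p
    rw [List.nodup_cons] at hK
    rw [List.map_cons, List.foldl_cons]
    have e : stB l (R, p) (qm t i0 j) (v (qm t i0 j)) =
      (fun i' => if i' = i0 then R i' + bz (v (qm t i0 j)) * p else R i', p) := rfl
    rw [e, ih hK.2]
    congr 1
    funext i
    by_cases hi : i = i0
    · subst hi
      rw [if_neg hK.1, if_pos List.mem_cons_self, if_pos rfl]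
    · have h1 : (i ∈ i0 :: K) ↔ i ∈ K := by
        rw [List.mem_cons]
        exact ⟨fun h => h.resolve_left hi, Or.inr⟩
      simp only [hi, if_false, h1]

theorem foldB_b (l : Fin L) (v : VarB n L → Bool) (j : Fin n) (K : List (Fin L)) :
    ∀ (R : Fin (codim n) → ZMod 2) (p : ZMod 2),
    (K.map (fun l' => qb l' j)).foldl (fun q x => stB l q x (v x)) (R, p) =
      (R, if l ∈ K then bz (v (qb l j)) else p) := by
  induction K with
  | nil => intro R p; simp
  | cons l0 K ih =>
    intro R p
    rw [List.map_cons, List.foldl_cons]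
    have e : stB l (R, p) (qb l0 j) (v (qb l0 j)) =
      (R, if l0 = l then bz (v (qb l0 j)) else p) := rfl
    rw [e, ih]
    congr 1
    by_cases hl : l0 = l
    · subst hl
      simp
    · have h1 : (l ∈ l0 :: K) ↔ l ∈ K := by
        rw [List.mem_cons]
        exact ⟨fun h => h.resolve_left (fun h' => hl h'.symm), Or.inr⟩
      simp only [h1, if_neg hl]

theorem fold_bkB (l : Fin L) (v : VarB n L → Bool) (t : Fin (subs n)) (j : Fin n)
    (R : Fin (codim n) → ZMod 2) (p : ZMod 2) :
    (bkB L t j).foldl (fun q x => stB l q x (v x)) (R, p) =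
      ((fun i => R i + bz (v (qm t i j)) * bz (v (qb l j))), bz (v (qb l j))) := by
  unfold bkB
  rw [List.foldl_append, foldB_b l v j, foldB_m l v t j (List.nodup_finRange _)]
  simp only [List.mem_finRange, if_true]

theorem foldB (l : Fin L) (v : VarB n L → Bool) (t : Fin (subs n)) (J : List (Fin n)) :
    ∀ (R : Fin (codim n) → ZMod 2) (p : ZMod 2), ∃ p',
    (J.flatMap (bkB L t)).foldl (fun q x => stB l q x (v x)) (R, p) =
      ((fun i => R i + (J.map (fun j => bz (v (qm t i j)) * bz (v (qb l j)))).sum), p') := by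
  induction J with
  | nil => intro R p; exact ⟨p, by simp⟩
  | cons j J ih =>
    intro R p
    rw [List.flatMap_cons, List.foldl_append, fold_bkB]
    obtain ⟨p', h⟩ := ih (fun i => R i + bz (v (qm t i j)) * bz (v (qb l j))) (bz (v (qb l j)))
    refine ⟨p', ?_⟩
    rw [h]
    simp only [List.map_cons, List.sum_cons, add_assoc]

theorem accB (v : VarB n L → Bool) (t : Fin (subs n)) (l : Fin L) :
    (((ordB L t).foldl (fun q x => stB l q x (v x)) ((fun _ => 0), 0)).1 = fun _ => 0) ↔
      inSub (fun i j => v (qm t i j)) (fun i => v (qs t i)) (fun j => v (qb l j)) = true := by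
  rw [ordB, List.foldl_append, foldB_s l v t (List.nodup_finRange _)]
  obtain ⟨p', h⟩ := foldB l v t (List.finRange n)
    (fun i => if i ∈ List.finRange (codim n) then 0 + bz (v (qs t i)) else 0) 0
  rw [h, inSub, decide_eq_true_iff, funext_iff]
  refine forall_congr' fun i => ?_
  simp only [List.mem_finRange, if_true, zero_add]
  rw [zmod2_add_eq_zero]
  have e1 : dot (fun j => v (qm t i j)) (fun j => v (qb l j)) =
      ((List.finRange n).map (fun j => bz (v (qm t i j)) * bz (v (qb l j)))).sum := by
    unfold dot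
    rw [Fin.sum_univ_def]
    congr 1
    refine List.map_congr_left fun j _ => ?_
    rw [bz_mul]
  rw [e1]
  rfl

theorem pow_codim (hn : 16 ≤ n) : 2 ^ codim n ≤ 4 * n ^ 2 := by
  have h1 : 2 ^ Nat.log 2 n ≤ n := Nat.pow_log_le_self 2 (by omega)
  calc 2 ^ codim n = 4 * (2 ^ Nat.log 2 n) ^ 2 := by
        unfold codim
        rw [← pow_mul, mul_add, pow_add]
        norm_num
        ring
    _ ≤ 4 * n ^ 2 := by gcongr

theorem numB (n L : ℕ) (hn : 16 ≤ n) (hL : 1 ≤ L) :
    (subs n * L) * ((codim n + n * (L + codim n) + 1) * (2 ^ codim n * 2)) + 2 ≤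
      (subs n * (codim n * n) + subs n * codim n + L * n) ^ 3 := by
  have hpow := pow_codim hn
  have hd : 10 ≤ codim n := by
    have h1 : Nat.log 2 16 ≤ Nat.log 2 n := Nat.log_mono_right hn
    have h2 : Nat.log 2 16 = 4 := by
      rw [show (16 : ℕ) = 2 ^ 4 by norm_num, Nat.log_pow (by norm_num)]
    unfold codim
    omega
  unfold subs
  set d := codim n with hdef
  set P := 5 * n ^ 2 * (d * n) + 5 * n ^ 2 * d + L * n with hP
  have h5 : 1 ≤ n ^ 2 := Nat.one_le_pow _ _ (by omega)
  have h1 : d + n * (L + d) + 1 ≤ P := by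
    have e1 : 5 * n ^ 2 * (d * n) + 5 * n ^ 2 * d = 5 * n ^ 2 * (d * (n + 1)) := by ring
    have e2 : 2 * (d * (n + 1)) ≤ 5 * n ^ 2 * (d * (n + 1)) :=
      Nat.mul_le_mul_right _ (by omega)
    have e3 : 1 ≤ d * (n + 1) := Nat.mul_pos (by omega) (Nat.succ_pos n)
    have e4 : d + n * (L + d) + 1 = d * (n + 1) + L * n + 1 := by ring
    rw [hP, e1, e4]
    omega
  have h2 : 40 * n ^ 4 * L + 1 ≤ P ^ 2 := by
    have e1 : 5 * n ^ 2 * (10 * n) ≤ 5 * n ^ 2 * (d * n) := by gcongr
    have e2 : 50 * n ^ 3 + L * n ≤ P := by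
      rw [hP]
      have : 5 * n ^ 2 * (10 * n) = 50 * n ^ 3 := by ring
      omega
    have e3 : 1 ≤ n ^ 4 * L := Nat.mul_pos (by positivity) hL
    calc 40 * n ^ 4 * L + 1 ≤ 100 * (n ^ 4 * L) := by
          have : 40 * n ^ 4 * L = 40 * (n ^ 4 * L) := by ring
          omega
      _ ≤ (50 * n ^ 3) ^ 2 + 100 * (n ^ 4 * L) + (L * n) ^ 2 := by omega
      _ = (50 * n ^ 3 + L * n) ^ 2 := by ring
      _ ≤ P ^ 2 := Nat.pow_le_pow_left e2 2
  calc (5 * n ^ 2 * L) * ((d + n * (L + d) + 1) * (2 ^ d * 2)) + 2
      ≤ (5 * n ^ 2 * L) * (P * ((4 * n ^ 2) * 2)) + P := by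
        have : 2 ≤ P := by omega
        gcongr
    _ = (40 * n ^ 4 * L + 1) * P := by ring
    _ ≤ P ^ 2 * P := Nat.mul_le_mul_right _ h2
    _ = P ^ 3 := by ring

/-- Small programs for the complement. -/
theorem compl_offF (n L : ℕ) (hn : 16 ≤ n) (hL : 1 ≤ L) :
    ∃ (N : Type) (_ : Fintype N) (G : NBP (VarB n L) N), G.SyntacticReadOnce ∧
      G.AccessPatterns 1 ∧ G.Computes (fun v => !offF n L v) ∧
      Fintype.card N ≤ Fintype.card (VarB n L) ^ 3 := by
  have hpos : 0 < subs n := subs_pos hn
  obtain ⟨G, hG1, hG3, hG2⟩ := uListP (T := subs n * L) (Q := StA n)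
    (M := codim n + n * (L + codim n)) (fun t => ordB L (finProdFinEquiv.symm t).1)
    (fun t => length_ordB _) (fun t => nodup_ordB _) ((fun _ => 0), 0)
    (fun t => stB (finProdFinEquiv.symm t).2) (fun t q => q.1 = fun _ => 0)
    ((ordB L (⟨0, hpos⟩ : Fin (subs n))).map rt) (fun t => pat_ordB _ _)
  refine ⟨_, inferInstance, G, hG1, hG3, ?_, ?_⟩
  · intro v
    rw [hG2 v]
    have e : (!offF n L v) = true ↔ ∃ (t : Fin (subs n)) (l : Fin L),
        inSub (fun i j => v (qm t i j)) (fun i => v (qs t i)) (fun j => v (qb l j)) = true := by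
      rw [offF, Bool.not_eq_true', decide_eq_false_iff_not]
      simp only [off, decide_eq_true_iff]
      push Not
      constructor
      · rintro ⟨l, t, h⟩
        exact ⟨t, l, by simpa using h⟩
      · rintro ⟨t, l, h⟩
        exact ⟨l, t, by simpa using h⟩
    rw [e]
    constructor
    · rintro ⟨t, ht⟩
      exact ⟨_, _, (accB v _ _).1 ht⟩
    · rintro ⟨t, l, ht⟩
      refine ⟨finProdFinEquiv (t, l), ?_⟩
      rw [Equiv.symm_apply_apply]
      exact (accB v _ _).2 ht
  · rw [Fintype.card_sum, Fintype.card_prod, Fintype.card_prod, Fintype.card_prod,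
      Fintype.card_fun, ZMod.card, Fintype.card_fin, Fintype.card_fin, Fintype.card_fin,
      Fintype.card_bool]
    have hV : Fintype.card (VarB n L) = subs n * (codim n * n) + subs n * codim n + L * n := by
      rw [Fintype.card_sum, Fintype.card_sum, Fintype.card_prod, Fintype.card_prod,
        Fintype.card_prod, Fintype.card_prod, Fintype.card_fin, Fintype.card_fin, Fintype.card_fin,
        Fintype.card_fin]
    rw [hV]
    exact numB n L hn hL

/-- If there are many points, then most variables are bits of points. -/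
theorem card_varB {n L : ℕ} (hn : 16 ≤ n) (hL : 4 * n ^ 3 ≤ L) :
    Fintype.card (VarB n L) ≤ 2 * (n * L) := by
  have hV : Fintype.card (VarB n L) = subs n * (codim n * n) + subs n * codim n + L * n := by
    rw [Fintype.card_sum, Fintype.card_sum, Fintype.card_prod, Fintype.card_prod,
      Fintype.card_prod, Fintype.card_prod, Fintype.card_fin, Fintype.card_fin, Fintype.card_fin,
      Fintype.card_fin]
  have hlog : 4 * (Nat.log 2 n + 1) ≤ n + 4 := by
    have h1 : 2 ^ Nat.log 2 n ≤ n := Nat.pow_log_le_self 2 (by omega)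
    have h2 : ∀ p : ℕ, 4 ≤ p → 4 * p ≤ 2 ^ p := by
      intro p hp
      induction p, hp using Nat.le_induction with
      | base => norm_num
      | succ p hp ih =>
        rw [pow_succ]
        omega
    have h3 : 4 ≤ Nat.log 2 n := Nat.le_log_of_pow_le (by norm_num) hn
    have := h2 _ h3
    omega
  have h1 : subs n * (codim n * n) + subs n * codim n ≤ 4 * n ^ 4 := by
    have e1 : subs n * (codim n * n) + subs n * codim n =
        5 * n ^ 2 * (2 * (Nat.log 2 n + 1)) * (n + 1) := by
      unfold subs codim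
      ring
    have e2 : 10 * (Nat.log 2 n + 1) * (n + 1) ≤ 4 * n ^ 2 := by
      nlinarith
    calc _ = n ^ 2 * (10 * (Nat.log 2 n + 1) * (n + 1)) := by
          rw [e1]
          ring
      _ ≤ n ^ 2 * (4 * n ^ 2) := Nat.mul_le_mul_left _ e2
      _ = 4 * n ^ 4 := by ring
  have h2 : 4 * n ^ 4 ≤ L * n := by
    calc 4 * n ^ 4 = 4 * n ^ 3 * n := by ring
      _ ≤ L * n := Nat.mul_le_mul_right _ hL
  rw [hV]
  have h3 : n * L = L * n := Nat.mul_comm _ _
  omega

end Pool.Agent.Lib_helper26.AC
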