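import Pool.Agent.Lib_helper20.LG.Cls

/-!
Fixing some of the variables of a program.
-/

namespace Pool.Agent.Lib_helper26.AC

open Finset Pool.Agent.Lib_helper20.SRO Pool.Agent.Lib_helper20.LG

variable {V X N : Type}

/-- the program with some variables fixed and the others renamed -/
def fixG (G : NBP V N) (ψ : V → Bool ⊕ X) : NBP X N where
  source := G.source
  sink := G.sink
  edge := fun u v t => match t with
    | none => G.edge u v none ∨ ∃ y c, ψ y = Sum.inl c ∧ G.edge u v (some (y, c))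
    | some (x, c) => ∃ y, ψ y = Sum.inr x ∧ G.edge u v (some (y, c))

/-- the extension of an input -/
def ext (ψ : V → Bool ⊕ X) (b : X → Bool) : V → Bool := fun v => Sum.elim id b (ψ v)

/-- the tests of the remaining variables -/
def pr (ψ : V → Bool ⊕ X) (l : List (V × Bool)) : List (X × Bool) :=
  l.filterMap (fun p => Sum.elim (fun _ => none) (fun x => some (x, p.2)) (ψ p.1))

lemma pr_cons_inl {ψ : V → Bool ⊕ X} {y : V} {c d : Bool} (l : List (V × Bool))
    (h : ψ y = Sum.inl d) : pr ψ ((y, c) :: l) = pr ψ l := by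
  simp [pr, h]

lemma pr_cons_inr {ψ : V → Bool ⊕ X} {y : V} {c : Bool} {x : X} (l : List (V × Bool))
    (h : ψ y = Sum.inr x) : pr ψ ((y, c) :: l) = (x, c) :: pr ψ l := by
  simp [pr, h]

lemma mem_pr {ψ : V → Bool ⊕ X} {l : List (V × Bool)} {x : X} {c : Bool} :
    (x, c) ∈ pr ψ l ↔ ∃ y, ψ y = Sum.inr x ∧ (y, c) ∈ l := by
  induction l with
  | nil => simp [pr]
  | cons p l ih =>
    obtain ⟨y, d⟩ := p
    rcases h : ψ y with e | x'
    · rw [pr_cons_inl l h, ih]
      constructor
      · rintro ⟨z, h1, h2⟩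
        exact ⟨z, h1, List.mem_cons_of_mem _ h2⟩
      · rintro ⟨z, h1, h2⟩
        rcases List.mem_cons.1 h2 with h3 | h3
        · simp only [Prod.mk.injEq] at h3
          rw [h3.1, h] at h1
          simp at h1
        · exact ⟨z, h1, h3⟩
    · rw [pr_cons_inr l h, List.mem_cons, ih]
      constructor
      · rintro (h1 | ⟨z, h1, h2⟩)
        · simp only [Prod.mk.injEq] at h1
          exact ⟨y, by rw [h, h1.1], by rw [h1.2]; exact List.mem_cons_self⟩
        · exact ⟨z, h1, List.mem_cons_of_mem _ h2⟩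
      · rintro ⟨z, h1, h2⟩
        rcases List.mem_cons.1 h2 with h3 | h3
        · simp only [Prod.mk.injEq] at h3
          rw [h3.1, h] at h1
          simp only [Sum.inr.injEq] at h1
          exact Or.inl (by rw [h1, h3.2])
        · exact Or.inr ⟨z, h1, h3⟩

theorem walk_fixG {G : NBP V N} {ψ : V → Bool ⊕ X} {u v : N} {l : List (V × Bool)}
    (h : Walk G u v l) : (∀ y c d, (y, c) ∈ l → ψ y = Sum.inl d → c = d) →
    Walk (fixG G ψ) u v (pr ψ l) := by
  induction h with
  | nil u => intro _; exact Walk.nil u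
  | free he _ ih =>
    intro h
    exact Walk.free (Or.inl he) (ih h)
  | test y c he _ ih =>
    intro h
    have ih' := ih (fun y' c' d' h' => h y' c' d' (List.mem_cons_of_mem _ h'))
    rcases hy : ψ y with e | x
    · have hc : c = e := h y c e List.mem_cons_self hy
      subst hc
      rw [pr_cons_inl _ hy]
      exact Walk.free (Or.inr ⟨y, c, hy, he⟩) ih'
    · rw [pr_cons_inr _ hy]
      exact Walk.test x c ⟨y, hy, he⟩ ih'

theorem walk_liftG {G : NBP V N} {ψ : V → Bool ⊕ X} {u v : N} {l' : List (X × Bool)}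
    (h : Walk (fixG G ψ) u v l') : ∃ l, Walk G u v l ∧ pr ψ l = l' ∧
      ∀ y c d, (y, c) ∈ l → ψ y = Sum.inl d → c = d := by
  induction h with
  | nil u => exact ⟨[], Walk.nil u, rfl, by simp⟩
  | free he _ ih =>
    obtain ⟨l, hl, hp, ha⟩ := ih
    rcases he with he | ⟨y, c, hy, he⟩
    · exact ⟨l, Walk.free he hl, hp, ha⟩
    · refine ⟨(y, c) :: l, Walk.test _ _ he hl, by rw [pr_cons_inl _ hy]; exact hp, ?_⟩
      intro y' c' d' h' hd
      rcases List.mem_cons.1 h' with h'' | h''
      · simp only [Prod.mk.injEq] at h''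
        rw [h''.1, hy] at hd
        simp only [Sum.inl.injEq] at hd
        rw [h''.2, hd]
      · exact ha y' c' d' h'' hd
  | test x c he _ ih =>
    obtain ⟨l, hl, hp, ha⟩ := ih
    obtain ⟨y, hy, he⟩ := he
    refine ⟨(y, c) :: l, Walk.test _ _ he hl, by rw [pr_cons_inr _ hy, hp], ?_⟩
    intro y' c' d' h' hd
    rcases List.mem_cons.1 h' with h'' | h''
    · simp only [Prod.mk.injEq] at h''
      rw [h''.1, hy] at hd
      simp at hd
    · exact ha y' c' d' h'' hd

theorem agrees_ext {ψ : V → Bool ⊕ X} {b : X → Bool} {l : List (V × Bool)} :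
    Agrees (ext ψ b) l ↔ Agrees b (pr ψ l) ∧ ∀ y c d, (y, c) ∈ l → ψ y = Sum.inl d → c = d := by
  constructor
  · intro h
    constructor
    · rintro ⟨x, c⟩ hp
      obtain ⟨y, hy, hl⟩ := mem_pr.1 hp
      have := h _ hl
      simpa [ext, hy] using this
    · intro y c d hl hy
      have := h _ hl
      simp only [ext, hy, Sum.elim_inl, id] at this
      exact this.symm
  · rintro ⟨h1, h2⟩ ⟨y, c⟩ hl
    rcases hy : ψ y with d | x
    · have := h2 y c d hl hy
      simp [ext, hy, this]
    · have := h1 (x, c) (mem_pr.2 ⟨y, hy, hl⟩)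
      simpa [ext, hy] using this

theorem fixG_accepts (G : NBP V N) (ψ : V → Bool ⊕ X) (b : X → Bool) :
    (fixG G ψ).Accepts b ↔ G.Accepts (ext ψ b) := by
  constructor
  · rintro ⟨l', hl', hb⟩
    obtain ⟨l, hl, hp, ha⟩ := walk_liftG hl'
    exact ⟨l, hl, agrees_ext.2 ⟨by rw [hp]; exact hb, ha⟩⟩
  · rintro ⟨l, hl, hb⟩
    obtain ⟨h1, h2⟩ := agrees_ext.1 hb
    exact ⟨pr ψ l, walk_fixG hl h2, h1⟩

end Pool.Agent.Lib_helper26.AC
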