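import Pool.Agent.Lib_helper26.AC.Core
import Pool.Agent.Lib_helper20.LG.Restrict
import Pool.Agent.Lib_helper20.LG.MajLB

/-!
The lower bounds for the functions that avoid affine subspaces, and for the majorities.
-/

namespace Pool.Agent.Lib_helper26.AC

open Finset Pool.Agent.Lib_helper20.SRO Pool.Agent.Lib_helper20.LG Pool.Agent.Lib_helper45.SRO

lemma bnd_sq (k : ℕ) : bnd k * bnd k = (k + 1) ^ (260 * k) := by
  rw [bnd, ← pow_add]
  congr 1
  ring

/-- The lower bound for suitable subspaces. -/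
theorem avoid_lower (hA : StmtAvoid) {k n : ℕ} (hk : 1 ≤ k) (h16 : 16 ≤ n)
    (hn : (k + 1) ^ (260 * k) ≤ n) :
    ∃ (M : Fin (subs n) → Fin (codim n) → Fin n → Bool) (s : Fin (subs n) → Fin (codim n) → Bool),
      ∀ (N : Type) [Fintype N] (G : NBP (Fin n) N) (a : ℕ),
        (∀ (b : Fin n → Bool) (u v : N),
          {V | ∃ l, Walk G u v l ∧ Agrees b l ∧ Pool.Agent.Lib_helper20.LG.vars l = V}.encard ≤ a) →
        (∀ b, G.Accepts b → ∃ l, Walk G G.source G.sink l ∧ Agrees b l ∧ l.length ≤ k * n) →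
        G.Computes (avoid M s) →
        (2 : ℝ) ^ ((n : ℝ) / (k + 1) ^ (260 * k)) ≤ a * Fintype.card N := by
  obtain ⟨M, s, hrect, hdense⟩ := hA n h16
  refine ⟨M, s, ?_⟩
  intro N _ G a hamb htests hcomp
  have hB : 0 < bnd k := Nat.pow_pos (Nat.succ_pos k)
  have h1 : (2 : ℝ) ^ ((n : ℝ) / (k + 1) ^ (260 * k)) ≤ 2 ^ ((n : ℝ) / bnd k) := by
    apply Real.rpow_le_rpow_of_exponent_le one_le_two
    apply div_le_div_of_nonneg_left (Nat.cast_nonneg _) (by exact_mod_cast hB)
    have h3 : (bnd k : ℝ) ≤ ((k + 1) ^ (260 * k) : ℕ) := by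
      rw [← bnd_sq]
      exact_mod_cast Nat.le_mul_of_pos_left _ hB
    refine h3.trans (le_of_eq ?_)
    push_cast
    rfl
  refine h1.trans (core hk (by rw [bnd_sq]; exact hn) hamb htests hcomp ?_ hrect hdense)
  rw [pow_succ, mul_comm]
  exact Nat.mul_le_mul_left _ (Nat.pow_log_le_self 2 (by omega))

/-- The lower bound for `avoidF`. -/
theorem avoidF_lower (hA : StmtAvoid) {k n : ℕ} (hk : 1 ≤ k) (h16 : 16 ≤ n)
    (hn : (k + 1) ^ (260 * k) ≤ n)
    (N : Type) [Fintype N] (G : NBP (VarA n) N) (a : ℕ) (hacc : G.AccessPatterns a)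
    (htests : G.FewTests (k * n)) (hcomp : G.Computes (avoidF n)) :
    (2 : ℝ) ^ ((n : ℝ) / (k + 1) ^ (260 * k)) ≤ a * Fintype.card N := by
  obtain ⟨M, s, h⟩ := avoid_lower hA hk h16 hn
  let α : (Fin (subs n) × Fin (codim n) × Fin n) ⊕ (Fin (subs n) × Fin (codim n)) → Bool :=
    Sum.elim (fun q => M q.1 q.2.1 q.2.2) (fun q => s q.1 q.2)
  exact h N (fixW G α) a (fixW_access α hacc) (fixW_few α htests) (fixW_computes α hcomp)

/-- The lower bound for the majority and its complement. -/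
theorem majA_lower (hA : StmtAvoid) {k n : ℕ} (hk : 1 ≤ k) (h16 : 16 ≤ n)
    (hn : (k + 1) ^ (260 * k) ≤ n)
    (N : Type) [Fintype N] (G : NBP (VarM n) N) (a : ℕ) (hacc : G.AccessPatterns a)
    (htests : G.FewTests (k * n))
    (hcomp : G.Computes (majA n) ∨ G.Computes (fun v => !majA n v)) :
    (2 : ℝ) ^ ((n : ℝ) / (k + 1) ^ (260 * k)) ≤ a * Fintype.card N := by
  obtain ⟨M, s, h⟩ := avoid_lower hA hk h16 hn
  let α : Bool → ((Fin (2 * subs n + 1) × Fin (codim n) × Fin n) ⊕
      (Fin (2 * subs n + 1) × Fin (codim n))) ⊕ Fin (2 * subs n + 1) → Bool := fun p =>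
    Sum.elim (Sum.elim (fun q => coM M q.1 q.2.1 q.2.2) (fun q => coS s q.1 q.2)) (fun _ => p)
  have key : ∀ (p : Bool) (b : Fin n → Bool), majA n (Sum.elim (α p) b) =
      decide (2 * subs n + 1 < 2 * (univ.filter (fun t : Fin (2 * subs n + 1) =>
        inSub (coM M t) (coS s t) b ≠ p)).card) := fun p b => rfl
  have key1 : ∀ b, majA n (Sum.elim (α true) b) = avoid M s b := by
    intro b
    rw [key, Bool.eq_iff_iff, decide_eq_true_iff, ← miss_iff]
    simp only [miss, ne_eq, Bool.not_eq_true]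
  have key2 : ∀ b, (!majA n (Sum.elim (α false) b)) = avoid M s b := by
    intro b
    rw [key, Bool.eq_iff_iff, Bool.not_eq_true', decide_eq_false_iff_not, ← miss_iff]
    have h1 := Finset.card_filter_add_card_filter_not (s := (univ : Finset (Fin (2 * subs n + 1))))
      (fun t => inSub (coM M t) (coS s t) b = false)
    rw [card_univ, Fintype.card_fin] at h1
    simp only [miss, ne_eq]
    omega
  rcases hcomp with hcomp | hcomp
  · refine h N (fixW G (α true)) a (fixW_access _ hacc) (fixW_few _ htests) ?_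
    have h1 := fixW_computes (α true) hcomp
    simp only [key1] at h1
    exact h1
  · refine h N (fixW G (α false)) a (fixW_access _ hacc) (fixW_few _ htests) ?_
    have h1 := fixW_computes (α false) hcomp
    simp only [key2] at h1
    exact h1

end Pool.Agent.Lib_helper26.AC
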