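import Pool.Agent.Lib_helper26.AC.Off
import Pool.Agent.Lib_helper26.AC.Fix
import Pool.Agent.Lib_helper26.AC.Lower

/-!
Several points: one of them is rarely read.
-/

namespace Pool.Agent.Lib_helper26.AC

open Finset Pool.Agent.Lib_helper20.SRO Pool.Agent.Lib_helper20.LG

/-- Double counting: a set of vectors contains a large part of a line. -/
lemma exists_line {L : ℕ} {A : Type} [Fintype A] [DecidableEq A] (Z : Finset A) (hZ : Z.Nonempty)
    (S : Fin L → Finset (Fin L → A))
    (hS : ∀ y, (∀ l, y l ∈ Z) → ∃ l, y ∈ S l) :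
    ∃ (l : Fin L) (y : Fin L → A), (∀ i, y i ∈ Z) ∧
      Z.card ≤ L * (Z.filter (fun z => Function.update y l z ∈ S l)).card := by
  classical
  set Y : Finset (Fin L → A) := Fintype.piFinset (fun _ => Z) with hY
  have hmem : ∀ y, y ∈ Y ↔ ∀ i, y i ∈ Z := fun y => Fintype.mem_piFinset
  obtain ⟨z0, hz0⟩ := hZ
  have hY0 : 0 < Y.card := card_pos.2 ⟨fun _ => z0, (hmem _).2 (fun _ => hz0)⟩
  by_contra hcon
  push Not at hcon
  -- the number of pairs
  have h1 : ∀ l : Fin L, ∑ y ∈ Y, (Z.filter (fun z => Function.update y l z ∈ S l)).card =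
      Z.card * (Y.filter (fun y => y ∈ S l)).card := by
    intro l
    have e1 : ∑ y ∈ Y, (Z.filter (fun z => Function.update y l z ∈ S l)).card =
        ((Y ×ˢ Z).filter (fun q => Function.update q.1 l q.2 ∈ S l)).card := by
      rw [Finset.card_filter, Finset.sum_product]
      exact Finset.sum_congr rfl (fun y _ => by rw [Finset.card_filter])
    have e2 : Z.card * (Y.filter (fun y => y ∈ S l)).card =
        ((Y ×ˢ Z).filter (fun q => q.1 ∈ S l)).card := by
      have e3 : (Y ×ˢ Z).filter (fun q => q.1 ∈ S l) = (Y.filter (fun y => y ∈ S l)) ×ˢ Z := by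
        ext q
        simp only [mem_filter, mem_product]
        tauto
      rw [e3, card_product, mul_comm]
    rw [e1, e2]
    refine Finset.card_bij' (fun q _ => (Function.update q.1 l q.2, q.1 l))
      (fun q _ => (Function.update q.1 l q.2, q.1 l)) ?_ ?_ ?_ ?_
    · rintro ⟨y, z⟩ hq
      rw [mem_filter, mem_product, hmem] at hq
      rw [mem_filter, mem_product, hmem]
      refine ⟨⟨fun i => ?_, hq.1.1 l⟩, hq.2⟩
      by_cases hi : i = l
      · subst hi
        simpa using hq.1.2
      · simpa [Function.update_of_ne hi] using hq.1.1 i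
    · rintro ⟨y, z⟩ hq
      rw [mem_filter, mem_product, hmem] at hq
      rw [mem_filter, mem_product, hmem]
      refine ⟨⟨fun i => ?_, hq.1.1 l⟩, ?_⟩
      · by_cases hi : i = l
        · subst hi
          simpa using hq.1.2
        · simpa [Function.update_of_ne hi] using hq.1.1 i
      · simpa using hq.2
    · rintro ⟨y, z⟩ _
      simp
    · rintro ⟨y, z⟩ _
      simp
  have h2 : Y.card ≤ ∑ l, (Y.filter (fun y => y ∈ S l)).card := by
    calc Y.card = ∑ y ∈ Y, 1 := by simp
      _ ≤ ∑ y ∈ Y, ∑ l : Fin L, (if y ∈ S l then 1 else 0) := by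
          refine Finset.sum_le_sum (fun y hy => ?_)
          obtain ⟨l, hl⟩ := hS y ((hmem y).1 hy)
          calc 1 = if y ∈ S l then 1 else 0 := by rw [if_pos hl]
            _ ≤ _ := Finset.single_le_sum (f := fun l => if y ∈ S l then 1 else 0)
                (fun _ _ => Nat.zero_le _) (mem_univ l)
      _ = _ := by
          rw [Finset.sum_comm]
          exact Finset.sum_congr rfl (fun l _ => by rw [Finset.card_filter])
  have h3 : ∀ l : Fin L, L * (Z.card * (Y.filter (fun y => y ∈ S l)).card) < Z.card * Y.card := by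
    intro l
    rw [← h1 l, Finset.mul_sum]
    calc ∑ y ∈ Y, L * (Z.filter (fun z => Function.update y l z ∈ S l)).card
        < ∑ _y ∈ Y, Z.card := by
          refine Finset.sum_lt_sum_of_nonempty (card_pos.1 hY0) (fun y hy => ?_)
          exact hcon l y ((hmem y).1 hy)
      _ = Z.card * Y.card := by rw [Finset.sum_const, smul_eq_mul, mul_comm]
  have hL : 0 < L := by
    obtain ⟨l, -⟩ := hS (fun _ => z0) (fun _ => hz0)
    exact lt_of_le_of_lt (Nat.zero_le _) l.2
  have h4 : L * (Z.card * Y.card) < L * (Z.card * Y.card) := by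
    calc L * (Z.card * Y.card) ≤ L * (Z.card * ∑ l, (Y.filter (fun y => y ∈ S l)).card) :=
          Nat.mul_le_mul_left _ (Nat.mul_le_mul_left _ h2)
      _ = ∑ l : Fin L, L * (Z.card * (Y.filter (fun y => y ∈ S l)).card) := by
          rw [Finset.mul_sum, Finset.mul_sum]
      _ < ∑ _l : Fin L, Z.card * Y.card := by
          have : Nonempty (Fin L) := ⟨⟨0, hL⟩⟩
          exact Finset.sum_lt_sum_of_nonempty univ_nonempty (fun l _ => h3 l)
      _ = L * (Z.card * Y.card) := by
          rw [Finset.sum_const, card_univ, Fintype.card_fin, smul_eq_mul]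
  exact lt_irrefl _ h4

/-- the variables that are fixed -/
def frz {n L : ℕ} {W : Type} (c : W → Bool) (y : Fin L → Fin n → Bool) (l0 : Fin L) :
    W ⊕ (Fin L × Fin n) → Bool ⊕ Fin n :=
  Sum.elim (fun w => Sum.inl (c w))
    (fun q => if q.1 = l0 then Sum.inr q.2 else Sum.inl (y q.1 q.2))

lemma ext_frz {n L : ℕ} {W : Type} (c : W → Bool) (y : Fin L → Fin n → Bool) (l0 : Fin L)
    (b : Fin n → Bool) :
    ext (frz c y l0) b = Sum.elim c (fun q => Function.update y l0 b q.1 q.2) := by
  funext v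
  rcases v with w | ⟨l, j⟩
  · rfl
  · simp only [ext, frz, Sum.elim_inr]
    by_cases h : l = l0
    · subst h
      simp
    · rw [if_neg h, Function.update_of_ne h]
      rfl

lemma frz_inr {n L : ℕ} {W : Type} {c : W → Bool} {y : Fin L → Fin n → Bool} {l0 : Fin L}
    {v : W ⊕ (Fin L × Fin n)} {j : Fin n} : frz c y l0 v = Sum.inr j ↔ v = Sum.inr (l0, j) := by
  rcases v with w | ⟨l, i⟩
  · simp [frz]
  · simp only [frz, Sum.elim_inr]
    by_cases h : l = l0
    · subst h
      simp
    · rw [if_neg h]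
      simp [h]

/-- the tests of one block -/
def inBlk {n L : ℕ} {W : Type} (l0 : Fin L) (p : (W ⊕ (Fin L × Fin n)) × Bool) : Bool :=
  Sum.elim (fun _ => false) (fun q => decide (q.1 = l0)) p.1

lemma pr_frz_length {n L : ℕ} {W : Type} (c : W → Bool) (y : Fin L → Fin n → Bool) (l0 : Fin L)
    (l : List ((W ⊕ (Fin L × Fin n)) × Bool)) :
    (pr (frz c y l0) l).length = l.countP (inBlk l0) := by
  induction l with
  | nil => simp [pr]
  | cons p l ih =>
    obtain ⟨v, e⟩ := p
    rcases v with w | ⟨i, j⟩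
    · rw [pr_cons_inl l (d := c w) (by rfl), ih, List.countP_cons_of_neg]
      simp [inBlk]
    · by_cases h : i = l0
      · subst h
        rw [pr_cons_inr l (x := j) (frz_inr.2 rfl), List.length_cons, ih,
          List.countP_cons_of_pos]
        simp [inBlk]
      · rw [pr_cons_inl l (d := y i j) (by simp [frz, h]), ih, List.countP_cons_of_neg]
        simp [inBlk, h]

lemma sum_inBlk {n L : ℕ} {W : Type} (l : List ((W ⊕ (Fin L × Fin n)) × Bool)) :
    ∑ l0 : Fin L, l.countP (inBlk l0) = l.countP (fun p => p.1.isRight) := by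
  induction l with
  | nil => simp
  | cons p l ih =>
    obtain ⟨v, e⟩ := p
    simp only [List.countP_cons, Finset.sum_add_distrib, ih]
    congr 1
    rcases v with w | ⟨i, j⟩
    · simp [inBlk]
    · simp [inBlk]

/-- The lower bound for a program that works for the coefficients `c`. -/
theorem block_lower {k n L m a : ℕ} {W : Type} (hk : 1 ≤ k) (hn : bnd k * bnd k ≤ n)
    (hL : 1 ≤ L) {N : Type} [Fintype N] {G : NBP (W ⊕ (Fin L × Fin n)) N} {c : W → Bool}
    {g : (Fin n → Bool) → Bool} (hm : m ≤ 2 * n) (hrect : RectFree g m)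
    (hdense : 2 ^ n ≤ 2 ^ 12 * (univ.filter (fun b => g b = true)).card)
    (hacc : AccessPatternsAt G c a) (hfew : FewTestsAt G c (k * (n * L)))
    (hcomp : ∀ b : Fin L × Fin n → Bool, G.Accepts (Sum.elim c b) ↔
      ∀ l, g (fun j => b (l, j)) = true) :
    (2 : ℝ) ^ ((n : ℝ) / bnd k) ≤ L * a * Fintype.card N := by
  classical
  set Z0 : Finset (Fin n → Bool) := univ.filter (fun b => g b = true) with hZ0
  have hmem : ∀ b, b ∈ Z0 ↔ g b = true := fun b => by simp [hZ0]
  have hne : Z0.Nonempty := by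
    rw [← card_pos]
    by_contra h
    have h0 : Z0.card = 0 := by omega
    rw [h0, mul_zero] at hdense
    have : 0 < 2 ^ n := by positivity
    omega
  -- the input of a vector of points
  let inp : (Fin L → Fin n → Bool) → Fin L × Fin n → Bool := fun y q => y q.1 q.2
  have hinp : ∀ y, (∀ l, y l ∈ Z0) → G.Accepts (Sum.elim c (inp y)) := by
    intro y hy
    rw [hcomp]
    intro l
    exact (hmem _).1 (hy l)
  let S : Fin L → Finset (Fin L → Fin n → Bool) := fun l => univ.filter (fun y =>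
    ∃ w, Walk G G.source G.sink w ∧ Agrees (Sum.elim c (inp y)) w ∧ w.countP (inBlk l) ≤ k * n)
  have hS : ∀ y, (∀ l, y l ∈ Z0) → ∃ l, y ∈ S l := by
    intro y hy
    obtain ⟨w, hw, hag, hc⟩ := hfew (inp y) (hinp y hy)
    by_contra hcon
    push Not at hcon
    have h1 : ∀ l : Fin L, k * n + 1 ≤ w.countP (inBlk l) := by
      intro l
      have := hcon l
      simp only [S, mem_filter, mem_univ, true_and, not_exists, not_and, not_le] at this
      exact this w hw hag
    have h2 : L * (k * n + 1) ≤ k * (n * L) := by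
      calc L * (k * n + 1) = ∑ _l : Fin L, (k * n + 1) := by
            rw [Finset.sum_const, card_univ, Fintype.card_fin, smul_eq_mul]
        _ ≤ ∑ l : Fin L, w.countP (inBlk l) := Finset.sum_le_sum (fun l _ => h1 l)
        _ = w.countP (fun p => p.1.isRight) := sum_inBlk w
        _ ≤ _ := hc
    have h3 : L * (k * n + 1) = k * (n * L) + L := by ring
    omega
  obtain ⟨l0, y0, hy0, hcard⟩ := exists_line Z0 hne S hS
  set ψ := frz c y0 l0 with hψ
  have hup : ∀ b, ext ψ b = Sum.elim c (inp (Function.update y0 l0 b)) := fun b =>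
    ext_frz c y0 l0 b
  refine core2 (G := fixG G ψ) (f := g) (m := m)
    (Z := Z0.filter (fun z => Function.update y0 l0 z ∈ S l0)) hk hn hL ?_ ?_ ?_ hm hrect ?_
  · intro b u v
    have h1 := hacc (inp (Function.update y0 l0 b)) u v
    let F : Set (Fin L × Fin n) → Finset (Fin n) := fun T => univ.filter (fun j => (l0, j) ∈ T)
    refine le_trans (Set.encard_le_encard (t := F '' {S : Set (Fin L × Fin n) | ∃ l, Walk G u v l ∧
      Agrees (Sum.elim c (inp (Function.update y0 l0 b))) l ∧
      S = {x | ∃ e, (Sum.inr x, e) ∈ l}}) ?_) (le_trans (Set.encard_image_le _ _) h1)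
    rintro V ⟨l', hl', hb, hV⟩
    obtain ⟨l, hl, hp, ha⟩ := walk_liftG hl'
    refine ⟨{x | ∃ e, (Sum.inr x, e) ∈ l}, ⟨l, hl, ?_, rfl⟩, ?_⟩
    · rw [← hup]
      exact agrees_ext.2 ⟨by rw [hp]; exact hb, ha⟩
    · rw [← hV]
      ext j
      simp only [F, mem_filter, mem_univ, true_and, Set.mem_ofPred_eq]
      rw [Pool.Agent.Lib_helper20.LG.vars, List.mem_toFinset, List.mem_map, ← hp]
      constructor
      · rintro ⟨e, he⟩
        exact ⟨(j, e), mem_pr.2 ⟨_, frz_inr.2 rfl, he⟩, rfl⟩
      · rintro ⟨⟨j', e⟩, he, rfl⟩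
        obtain ⟨v', hv', he'⟩ := mem_pr.1 he
        rw [hψ, frz_inr] at hv'
        subst hv'
        exact ⟨e, he'⟩
  · intro b hb
    rw [mem_filter] at hb
    have h1 := hb.2
    simp only [S, mem_filter, mem_univ, true_and] at h1
    obtain ⟨w, hw, hag, hc⟩ := h1
    rw [← hup] at hag
    obtain ⟨h2, h3⟩ := agrees_ext.1 hag
    refine ⟨pr ψ w, walk_fixG hw h3, h2, ?_⟩
    rw [hψ, pr_frz_length]
    exact hc
  · intro b hb
    rw [fixG_accepts, hup, hcomp] at hb
    have := hb l0
    simpa [inp] using this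
  · calc 2 ^ n ≤ 2 ^ 12 * Z0.card := hdense
      _ ≤ 2 ^ 12 * (L * (Z0.filter (fun z => Function.update y0 l0 z ∈ S l0)).card) :=
          Nat.mul_le_mul_left _ hcard

/-- The lower bound for `offF`. -/
theorem offF_lower {n : ℕ} (h16 : 16 ≤ n) : ∃ c : Coef n → Bool, ∀ L k : ℕ, 1 ≤ L → 1 ≤ k →
    (k + 1) ^ (260 * k) ≤ n → ∀ (N : Type) [Fintype N] (G : NBP (VarB n L) N) (a : ℕ),
      AccessPatternsAt G c a → FewTestsAt G c (k * (n * L)) → ComputesAt G c (offF n L) →
      (2 : ℝ) ^ ((n : ℝ) / (k + 1) ^ (260 * k)) ≤ L * a * Fintype.card N := by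
  obtain ⟨M, s, hrect, hdense⟩ := exists_off n h16
  refine ⟨Sum.elim (fun q => M q.1 q.2.1 q.2.2) (fun q => s q.1 q.2), ?_⟩
  intro L k hL hk hn N _ G a hacc hfew hcomp
  have hB : 0 < bnd k := Nat.pow_pos (Nat.succ_pos k)
  have h1 : (2 : ℝ) ^ ((n : ℝ) / (k + 1) ^ (260 * k)) ≤ 2 ^ ((n : ℝ) / bnd k) := by
    apply Real.rpow_le_rpow_of_exponent_le one_le_two
    apply div_le_div_of_nonneg_left (Nat.cast_nonneg _) (by exact_mod_cast hB)
    have h3 : (bnd k : ℝ) ≤ ((k + 1) ^ (260 * k) : ℕ) := by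
      rw [← bnd_sq]
      exact_mod_cast Nat.le_mul_of_pos_left _ hB
    refine h3.trans (le_of_eq ?_)
    push_cast
    rfl
  refine h1.trans (block_lower hk (by rw [bnd_sq]; exact hn) hL ?_ hrect hdense hacc hfew ?_)
  · rw [pow_succ, mul_comm]
    exact Nat.mul_le_mul_left _ (Nat.pow_log_le_self 2 (by omega))
  · intro b
    rw [hcomp b, offF, decide_eq_true_iff]
    rfl

end Pool.Agent.Lib_helper26.AC
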