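import Mathlib

/-!
The choice of the group of segments and of the block of coordinates.
-/

namespace Pool.Agent.Lib_helper26.AC

open Finset

/-- the coordinates with all segments in `F` -/
def low {n r : ℕ} (R : Fin n → Finset (Fin r)) (F : Finset (Fin r)) : Finset (Fin n) :=
  univ.filter (fun i => R i ⊆ F)

/-- Some group of `2 k` segments contains all segments of many coordinates. -/
theorem group {n r k : ℕ} (hr : 2 * k ≤ r) (R : Fin n → Finset (Fin r))
    (hR : ∑ i, (R i).card ≤ k * n) :
    ∃ F : Finset (Fin r), F.card = 2 * k ∧ n ≤ 2 * (r.choose (2 * k) * (low R F).card) := by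
  classical
  set G : Finset (Fin n) := univ.filter (fun i => (R i).card ≤ 2 * k) with hG
  have h1 : n ≤ 2 * G.card := by
    have h2 : ∑ i ∈ univ.filter (fun i => ¬ (R i).card ≤ 2 * k), (2 * k + 1) ≤ k * n := by
      refine le_trans (Finset.sum_le_sum (fun i hi => ?_)) (le_trans
        (Finset.sum_le_sum_of_subset (Finset.filter_subset _ _)) hR)
      have := (mem_filter.1 hi).2
      omega
    rw [Finset.sum_const, smul_eq_mul] at h2
    have h3 := Finset.card_filter_add_card_filter_not (s := (univ : Finset (Fin n)))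
      (fun i => (R i).card ≤ 2 * k)
    rw [card_univ, Fintype.card_fin] at h3
    rw [← hG] at h3
    set b := (univ.filter (fun i => ¬ (R i).card ≤ 2 * k)).card with hb
    by_contra hcon
    rw [not_le] at hcon
    have h4 : n + 1 ≤ 2 * b := by omega
    have h5 : (n + 1) * (2 * k + 1) ≤ 2 * b * (2 * k + 1) := Nat.mul_le_mul_right _ h4
    have h6 : 2 * b * (2 * k + 1) ≤ 2 * (k * n) := by
      calc 2 * b * (2 * k + 1) = 2 * (b * (2 * k + 1)) := by ring
        _ ≤ 2 * (k * n) := Nat.mul_le_mul_left _ h2
    nlinarith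
  have h2 : G.card ≤ ∑ F ∈ (univ : Finset (Fin r)).powersetCard (2 * k), (low R F).card := by
    refine le_trans (Finset.card_le_card (t := ((univ : Finset (Fin r)).powersetCard
      (2 * k)).biUnion (fun F => low R F)) ?_) Finset.card_biUnion_le
    intro i hi
    have h3 := (mem_filter.1 hi).2
    obtain ⟨F, hF1, hF2⟩ := Finset.exists_superset_card_eq h3
      (by rw [Fintype.card_fin]; exact hr)
    rw [mem_biUnion]
    refine ⟨F, ?_, ?_⟩
    · rw [mem_powersetCard]
      exact ⟨subset_univ _, hF2⟩
    · rw [low, mem_filter]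
      exact ⟨mem_univ _, hF1⟩
  by_contra hcon
  push Not at hcon
  have h3 : ∀ F ∈ (univ : Finset (Fin r)).powersetCard (2 * k),
      2 * r.choose (2 * k) * (low R F).card < n := by
    intro F hF
    rw [mem_powersetCard] at hF
    have := hcon F hF.2
    rwa [← mul_assoc] at this
  have hne : ((univ : Finset (Fin r)).powersetCard (2 * k)).Nonempty := by
    rw [powersetCard_nonempty, card_univ, Fintype.card_fin]
    exact hr
  have h4 := Finset.sum_lt_sum_of_nonempty hne h3
  rw [← Finset.mul_sum, Finset.sum_const, card_powersetCard, card_univ, Fintype.card_fin,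
    smul_eq_mul] at h4
  have h5 : 0 < r.choose (2 * k) := Nat.choose_pos hr
  have h6 : r.choose (2 * k) * n ≤ r.choose (2 * k) * (2 * G.card) := Nat.mul_le_mul_left _ h1
  have h7 : 2 * r.choose (2 * k) * G.card ≤ 2 * r.choose (2 * k) *
      ∑ F ∈ (univ : Finset (Fin r)).powersetCard (2 * k), (low R F).card :=
    Nat.mul_le_mul_left _ h2
  have h8 : r.choose (2 * k) * (2 * G.card) = 2 * r.choose (2 * k) * G.card := by ring
  omega

/-- block `b` of `q` consecutive coordinates -/
def blk (n q b : ℕ) : Finset (Fin n) := univ.filter (fun i => i.val / q = b)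

lemma card_blk {n q b : ℕ} (hq : 0 < q) (hb : b < n / q) : (blk n q b).card = q := by
  have h1 : (b + 1) * q ≤ n := by
    calc (b + 1) * q ≤ n / q * q := Nat.mul_le_mul_right _ hb
      _ ≤ n := Nat.div_mul_le_self n q
  have h2 : (blk n q b).image Fin.val = Finset.Ico (b * q) ((b + 1) * q) := by
    ext x
    rw [mem_image, mem_Ico]
    constructor
    · rintro ⟨i, hi, rfl⟩
      rw [blk, mem_filter] at hi
      rw [← hi.2]
      refine ⟨Nat.div_mul_le_self _ _, ?_⟩
      exact (Nat.div_lt_iff_lt_mul hq).1 (Nat.lt_succ_self _)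
    · rintro ⟨h3, h4⟩
      refine ⟨⟨x, by omega⟩, ?_, rfl⟩
      rw [blk, mem_filter]
      refine ⟨mem_univ _, ?_⟩
      show x / q = b
      apply Nat.le_antisymm
      · exact Nat.lt_succ_iff.1 ((Nat.div_lt_iff_lt_mul hq).2 h4)
      · exact (Nat.le_div_iff_mul_le hq).2 h3
  rw [← Finset.card_image_of_injective _ Fin.val_injective, h2, Nat.card_Ico, add_mul, one_mul]
  omega

/-- the block -/
theorem block {n q M : ℕ} (hM : 0 < M) (D A : Finset (Fin n)) :
    ∃ b < M, M * (blk n q b ∩ D).card ≤ 3 * D.card ∧ M * (blk n q b ∩ A).card ≤ 3 * A.card := by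
  classical
  by_contra hcon
  push Not at hcon
  have key : ∀ D : Finset (Fin n), D.Nonempty →
      2 * ((range M).filter (fun b => 3 * D.card < M * (blk n q b ∩ D).card)).card < M := by
    intro D hD
    by_contra h
    rw [not_lt] at h
    set T := (range M).filter (fun b => 3 * D.card < M * (blk n q b ∩ D).card) with hT
    have h1 : ∑ b ∈ T, (blk n q b ∩ D).card ≤ D.card := by
      rw [← Finset.card_biUnion]
      · apply Finset.card_le_card
        intro i hi
        rw [mem_biUnion] at hi
        obtain ⟨b, _, hb⟩ := hi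
        exact (mem_inter.1 hb).2
      · intro b _ c _ hbc
        show Disjoint _ _
        rw [Finset.disjoint_left]
        intro i hi hi'
        rw [mem_inter, blk, mem_filter] at hi hi'
        exact hbc (hi.1.2.symm.trans hi'.1.2)
    have h2 : ∑ _b ∈ T, 3 * D.card ≤ ∑ b ∈ T, M * (blk n q b ∩ D).card := by
      apply Finset.sum_le_sum
      intro b hb
      exact (mem_filter.1 hb).2.le
    rw [Finset.sum_const, smul_eq_mul, ← Finset.mul_sum] at h2
    have h3 : M * ∑ b ∈ T, (blk n q b ∩ D).card ≤ M * D.card := Nat.mul_le_mul_left _ h1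
    have h4 : M * D.card ≤ 2 * T.card * D.card := Nat.mul_le_mul_right _ h
    have h5 : 0 < M * D.card := Nat.mul_pos hM hD.card_pos
    nlinarith
  have h0 : ∀ D : Finset (Fin n),
      2 * ((range M).filter (fun b => 3 * D.card < M * (blk n q b ∩ D).card)).card < M := by
    intro D
    rcases D.eq_empty_or_nonempty with h | h
    · subst h
      simpa using hM
    · exact key D h
  have h1 := h0 D
  have h2 := h0 A
  have h3 : range M ⊆ (range M).filter (fun b => 3 * D.card < M * (blk n q b ∩ D).card) ∪
      (range M).filter (fun b => 3 * A.card < M * (blk n q b ∩ A).card) := by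
    intro b hb
    rw [mem_union, mem_filter, mem_filter]
    by_cases hbD : M * (blk n q b ∩ D).card ≤ 3 * D.card
    · exact Or.inr ⟨hb, hcon b (mem_range.1 hb) hbD⟩
    · exact Or.inl ⟨hb, not_le.1 hbD⟩
  have h4 := (Finset.card_le_card h3).trans (Finset.card_union_le _ _)
  rw [card_range] at h4
  omega

end Pool.Agent.Lib_helper26.AC
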