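import Mathlib

/-!
Numerical estimates.
-/

namespace Pool.Agent.Lib_helper26.AC

open Finset

lemma exp_le_two (x : ℝ) (hx : 0 ≤ x) : Real.exp x ≤ (2 : ℝ) ^ (2 * x) := by
  rw [Real.rpow_def_of_pos (by norm_num)]
  apply Real.exp_le_exp.2
  have := Real.log_two_gt_d9
  nlinarith

/-- The number of small subsets. -/
theorem card_small_sets {n : ℕ} (Q : Finset (Fin n)) {t ρ u : ℕ}
    (h : ρ * t * 2 ^ ρ + 2 * Q.card ≤ u * 2 ^ ρ) :
    (Q.powerset.filter (fun s => s.card ≤ t)).card ≤ 2 ^ u := by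
  have h1 : ((Q.powerset.filter (fun s => s.card ≤ t)).card : ℝ) ≤
      2 ^ (ρ * t) * (1 / 2 ^ ρ + 1) ^ Q.card := by
    have h2 := Finset.sum_pow_mul_eq_add_pow (1 / 2 ^ ρ : ℝ) 1 Q
    rw [← h2, Finset.mul_sum, Finset.card_eq_sum_ones]
    push_cast
    refine le_trans (Finset.sum_le_sum (g := fun s => 2 ^ (ρ * t) *
      ((1 / 2 ^ ρ : ℝ) ^ s.card * 1 ^ (Q.card - s.card))) ?_)
      (Finset.sum_le_sum_of_subset_of_nonneg (Finset.filter_subset _ _) ?_)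
    · intro s hs
      have hs2 := (mem_filter.1 hs).2
      rw [one_pow, mul_one, one_div, inv_pow, ← pow_mul]
      rw [← div_eq_mul_inv, one_le_div (by positivity)]
      exact pow_le_pow_right₀ one_le_two (Nat.mul_le_mul_left _ hs2)
    · intro s _ _
      positivity
  have h3 : (1 / 2 ^ ρ + 1 : ℝ) ^ Q.card ≤ 2 ^ (2 * ((Q.card : ℝ) / 2 ^ ρ)) := by
    refine le_trans ?_ (exp_le_two _ (by positivity))
    have e : Real.exp ((Q.card : ℝ) / 2 ^ ρ) = Real.exp (1 / 2 ^ ρ) ^ Q.card := by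
      rw [← Real.exp_nat_mul]
      congr 1
      ring
    rw [e]
    exact pow_le_pow_left₀ (by positivity) (Real.add_one_le_exp _) _
  have h4 : ((Q.powerset.filter (fun s => s.card ≤ t)).card : ℝ) ≤ 2 ^ u := by
    refine h1.trans ?_
    calc (2 : ℝ) ^ (ρ * t) * (1 / 2 ^ ρ + 1) ^ Q.card
        ≤ 2 ^ (ρ * t) * 2 ^ (2 * ((Q.card : ℝ) / 2 ^ ρ)) :=
          mul_le_mul_of_nonneg_left h3 (by positivity)
      _ = (2 : ℝ) ^ (((ρ * t : ℕ) : ℝ) + 2 * ((Q.card : ℝ) / 2 ^ ρ)) := by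
          rw [Real.rpow_add (by norm_num), Real.rpow_natCast]
      _ ≤ (2 : ℝ) ^ ((u : ℕ) : ℝ) := by
          apply Real.rpow_le_rpow_of_exponent_le one_le_two
          have h5 : ((ρ * t * 2 ^ ρ + 2 * Q.card : ℕ) : ℝ) ≤ ((u * 2 ^ ρ : ℕ) : ℝ) := by
            exact_mod_cast h
          push_cast at h5 ⊢
          have h6 : (0 : ℝ) < 2 ^ ρ := by positivity
          have h7 : (ρ * t + 2 * ((Q.card : ℝ) / 2 ^ ρ)) * 2 ^ ρ ≤ u * 2 ^ ρ := by
            have : (ρ * t + 2 * ((Q.card : ℝ) / 2 ^ ρ)) * 2 ^ ρ =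
                ρ * t * 2 ^ ρ + 2 * Q.card := by
              field_simp
            rw [this]
            exact h5
          exact le_of_mul_le_mul_right h7 h6
      _ = 2 ^ u := Real.rpow_natCast _ _
  exact_mod_cast h4

/-- A binomial coefficient. -/
theorem choose_le {n u x : ℕ} (hu : 1 ≤ u) (h : n ≤ 2 ^ x * (2 * u)) :
    n.choose (2 * u) ≤ 2 ^ (2 * u * (x + 2)) := by
  have h1 : (n.choose (2 * u) : ℝ) ≤ (n : ℝ) ^ (2 * u) / (2 * u).factorial :=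
    Nat.choose_le_pow_div _ _
  have h2 : ((2 * u : ℕ) : ℝ) ^ (2 * u) / (2 * u).factorial ≤ Real.exp ((2 * u : ℕ) : ℝ) :=
    Real.pow_div_factorial_le_exp _ (Nat.cast_nonneg _) _
  have h3 : Real.exp ((2 * u : ℕ) : ℝ) ≤ 2 ^ (2 * u * 2) := by
    refine (exp_le_two _ (Nat.cast_nonneg _)).trans (le_of_eq ?_)
    rw [← Real.rpow_natCast]
    congr 1
    push_cast
    ring
  have h4 : (n : ℝ) ≤ 2 ^ x * ((2 * u : ℕ) : ℝ) := by exact_mod_cast h
  have h5 : (0 : ℝ) < (2 * u).factorial := by exact_mod_cast Nat.factorial_pos _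
  have h6 : (n.choose (2 * u) : ℝ) ≤ 2 ^ (2 * u * (x + 2)) := by
    calc (n.choose (2 * u) : ℝ) ≤ (n : ℝ) ^ (2 * u) / (2 * u).factorial := h1
      _ ≤ (2 ^ x * ((2 * u : ℕ) : ℝ)) ^ (2 * u) / (2 * u).factorial := by
          apply div_le_div_of_nonneg_right _ h5.le
          exact pow_le_pow_left₀ (Nat.cast_nonneg _) h4 _
      _ = (2 ^ x) ^ (2 * u) * (((2 * u : ℕ) : ℝ) ^ (2 * u) / (2 * u).factorial) := by
          rw [mul_pow]
          ring
      _ ≤ (2 ^ x) ^ (2 * u) * 2 ^ (2 * u * 2) :=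
          mul_le_mul_of_nonneg_left (h2.trans h3) (by positivity)
      _ = 2 ^ (2 * u * (x + 2)) := by
          rw [← pow_mul, ← pow_add]
          congr 1
          ring
  exact_mod_cast h6

/-- the exponent of the number of segments -/
def rh (k : ℕ) : ℕ := 20 * (Nat.log 2 (k + 1) + 1)

lemma two_lam {k : ℕ} (hk : 1 ≤ k) : k < 2 ^ (Nat.log 2 (k + 1) + 1) ∧
    4 ≤ 2 ^ (Nat.log 2 (k + 1) + 1) ∧ 2 ^ (Nat.log 2 (k + 1) + 1) ≤ (k + 1) ^ 2 := by
  have h1 : k + 1 < 2 ^ (Nat.log 2 (k + 1) + 1) := Nat.lt_pow_succ_log_self (by norm_num) _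
  have h2 : 2 ^ Nat.log 2 (k + 1) ≤ k + 1 := Nat.pow_log_le_self 2 (by omega)
  have h3 : 1 ≤ Nat.log 2 (k + 1) := Nat.le_log_of_pow_le (by norm_num) (by omega)
  refine ⟨by omega, ?_, ?_⟩
  · calc 4 = 2 ^ (1 + 1) := by norm_num
      _ ≤ 2 ^ (Nat.log 2 (k + 1) + 1) := Nat.pow_le_pow_right (by norm_num) (by omega)
  · rw [pow_succ]
    nlinarith

/-- the number of segments is large enough -/
theorem segs_large {k : ℕ} (hk : 1 ≤ k) :
    (24 * k ^ 2 * rh k + 2) * (22 + 8 * k * rh k) ≤ 2 ^ rh k := by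
  obtain ⟨h1, h2, _⟩ := two_lam hk
  set X := 2 ^ (Nat.log 2 (k + 1) + 1) with hX
  have hL : Nat.log 2 (k + 1) + 1 ≤ X := Nat.lt_two_pow_self.le
  have hr : rh k ≤ 20 * X := by
    unfold rh
    omega
  have hp : 2 ^ rh k = X ^ 20 := by
    rw [hX, rh, ← pow_mul]
    congr 1
    ring
  rw [hp]
  calc (24 * k ^ 2 * rh k + 2) * (22 + 8 * k * rh k)
      ≤ (24 * X ^ 2 * (20 * X) + 2) * (22 + 8 * X * (20 * X)) := by
        gcongr
    _ ≤ (481 * X ^ 3) * (162 * X ^ 2) := by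
        apply Nat.mul_le_mul
        · have : 2 ≤ X ^ 3 := by
            calc 2 ≤ 4 ^ 3 := by norm_num
              _ ≤ X ^ 3 := Nat.pow_le_pow_left h2 3
          nlinarith
        · have : 22 ≤ 2 * X ^ 2 := by
            calc 22 ≤ 2 * 4 ^ 2 := by norm_num
              _ ≤ 2 * X ^ 2 := Nat.mul_le_mul_left _ (Nat.pow_le_pow_left h2 2)
          nlinarith
    _ = 77922 * X ^ 5 := by ring
    _ ≤ X ^ 15 * X ^ 5 := by
        apply Nat.mul_le_mul_right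
        calc 77922 ≤ 4 ^ 15 := by norm_num
          _ ≤ X ^ 15 := Nat.pow_le_pow_left h2 15
    _ = X ^ 20 := by ring

/-- the bound -/
def bnd (k : ℕ) : ℕ := (k + 1) ^ (130 * k)

theorem bnd_large {k : ℕ} (hk : 1 ≤ k) :
    128 * (2 ^ rh k * (2 ^ rh k) ^ (2 * k)) ≤ bnd k := by
  obtain ⟨_, _, h3⟩ := two_lam hk
  have h4 : 2 ^ rh k ≤ (k + 1) ^ 40 := by
    calc 2 ^ rh k = (2 ^ (Nat.log 2 (k + 1) + 1)) ^ 20 := by
          rw [rh, ← pow_mul]
          congr 1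
          ring
      _ ≤ ((k + 1) ^ 2) ^ 20 := Nat.pow_le_pow_left h3 20
      _ = (k + 1) ^ 40 := by rw [← pow_mul]
  have h5 : 128 ≤ (k + 1) ^ (7 * k) := by
    calc 128 = 2 ^ 7 := by norm_num
      _ ≤ (k + 1) ^ 7 := Nat.pow_le_pow_left (by omega) 7
      _ ≤ (k + 1) ^ (7 * k) := Nat.pow_le_pow_right (by omega) (by omega)
  calc 128 * (2 ^ rh k * (2 ^ rh k) ^ (2 * k)) = 128 * (2 ^ rh k) ^ (2 * k + 1) := by
        rw [pow_succ]
        ring
    _ ≤ (k + 1) ^ (7 * k) * ((k + 1) ^ 40) ^ (2 * k + 1) :=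
        Nat.mul_le_mul h5 (Nat.pow_le_pow_left h4 _)
    _ = (k + 1) ^ (7 * k + 40 * (2 * k + 1)) := by rw [← pow_mul, ← pow_add]
    _ ≤ (k + 1) ^ (130 * k) := Nat.pow_le_pow_right (by omega) (by omega)

end Pool.Agent.Lib_helper26.AC
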