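import Pool.Agent.Lib_helper26.AC.Cls
import Pool.Agent.Lib_helper26.AC.Choice
import Pool.Agent.Lib_helper26.AC.Num

/-!
The number of accepted inputs whose walks pass through fixed nodes.
-/

namespace Pool.Agent.Lib_helper26.AC

open Finset Pool.Agent.Lib_helper20.SRO Pool.Agent.Lib_helper20.LG

/-- the number of segments -/
def sg (k : ℕ) : ℕ := 2 ^ rh k

/-- the number of groups -/
def gp (k : ℕ) : ℕ := sg k ^ (2 * k)

/-- the size of the blocks -/
def bs (n k : ℕ) : ℕ := n / (8 * gp k) * (22 + 8 * k * rh k)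

/-- the bound for the tests in a block -/
def tb (n k : ℕ) : ℕ := 24 * k ^ 2 * bs n k / sg k

/-- good groups and blocks -/
def Good {n k : ℕ} (w : Fin (sg k) → List (Fin n × Bool)) (F : Finset (Fin (sg k))) (b : ℕ) :
    Prop := b < n / bs n k ∧ 2 * (n / (8 * gp k)) ≤ (free w F (blk n (bs n k) b)).card ∧
      (blk n (bs n k) b ∩ tst w F).card ≤ tb n k

section

variable {n k : ℕ}

lemma sg_pos : 0 < sg k := by
  unfold sg
  positivity

lemma gp_pos : 0 < gp k := by
  unfold gp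
  exact pow_pos sg_pos _

lemma gp_ge (hk : 1 ≤ k) : sg k ≤ gp k := by
  unfold gp
  exact Nat.le_self_pow (by omega) _

lemma gp_two : gp k = 2 ^ (2 * k * rh k) := by
  rw [gp, sg, ← pow_mul]
  congr 1
  ring

lemma rh_pos : 1 ≤ rh k := by
  unfold rh
  omega

lemma segs (hk : 1 ≤ k) : (24 * k ^ 2 * rh k + 2) * (22 + 8 * k * rh k) ≤ sg k :=
  segs_large hk

lemma bs_eq : bs n k = n / (8 * gp k) * (22 + 8 * k * rh k) := rfl

lemma tb_le : tb n k * sg k ≤ 24 * k ^ 2 * bs n k := Nat.div_mul_le_self _ _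

lemma tb2 : tb n k * 2 ^ rh k ≤ 24 * k ^ 2 * bs n k := Nat.div_mul_le_self _ _

lemma le_tb {c : ℕ} (h : c * sg k ≤ 24 * k ^ 2 * bs n k) : c ≤ tb n k :=
  (Nat.le_div_iff_mul_le sg_pos).2 h

lemma bnd_ge (hk : 1 ≤ k) : 128 * (sg k * gp k) ≤ bnd k := bnd_large hk

attribute [irreducible] sg gp bs tb

lemma six_le (hk : 1 ≤ k) : 6 * (22 + 8 * k * rh k) ≤ sg k := by
  refine le_trans (Nat.mul_le_mul_right _ ?_) (segs hk)
  have h1 : 1 ≤ rh k := rh_pos
  have h2 : 1 ≤ k ^ 2 * rh k := Nat.mul_pos (by positivity) h1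
  have h3 : 24 * k ^ 2 * rh k = 24 * (k ^ 2 * rh k) := by ring
  omega

lemma bs_six (hk : 1 ≤ k) : 6 * bs n k ≤ n := by
  have h1 := six_le hk
  have h2 : sg k ≤ gp k := gp_ge hk
  calc 6 * bs n k = n / (8 * gp k) * (6 * (22 + 8 * k * rh k)) := by
        rw [bs_eq]
        ring
    _ ≤ n / (8 * gp k) * (8 * gp k) := Nat.mul_le_mul_left _ (by omega)
    _ ≤ n := Nat.div_mul_le_self _ _

lemma bs_pos (hn : 8 * gp k ≤ n) : 0 < bs n k := by
  rw [bs_eq]
  apply Nat.mul_pos
  · exact Nat.div_pos hn (Nat.mul_pos (by norm_num) gp_pos)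
  · omega

/-- Each list of segments has a good group and a good block. -/
theorem exists_good (hk : 1 ≤ k) (hn : 8 * gp k ≤ n) {w : Fin (sg k) → List (Fin n × Bool)}
    (hsum : ∑ i, (seg w i).card ≤ k * n) (hh : ∀ j, (vars (w j)).card ≤ k * n / sg k + 1) :
    ∃ (F : Finset (Fin (sg k))) (b : ℕ), Good w F b := by
  have hs := segs hk
  have hq := bs_pos hn
  have h6 := bs_six (n := n) hk
  have hM6 : 6 ≤ n / bs n k := (Nat.le_div_iff_mul_le hq).2 h6
  have h2k : 2 * k ≤ sg k := by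
    refine le_trans ?_ (six_le hk)
    have h1 : k * 1 ≤ k * rh k := Nat.mul_le_mul_left _ rh_pos
    have h2 : 8 * k * rh k = 8 * (k * rh k) := by ring
    omega
  obtain ⟨F, hF, hlow⟩ := group h2k (seg w) hsum
  obtain ⟨b, hb, hD, hA⟩ := block (q := bs n k) (M := n / bs n k) (by omega) (tst w F)
    (low (seg w) F)
  refine ⟨F, b, hb, ?_, ?_⟩
  · have h1 : (low (seg w) F).card ≤ (free w F (blk n (bs n k) b)).card +
        (blk n (bs n k) b ∩ low (seg w) F).card := by
      refine le_trans (Finset.card_le_card ?_) (Finset.card_union_le _ _)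
      intro i hi
      rw [mem_union]
      by_cases hiQ : i ∈ blk n (bs n k) b
      · exact Or.inr (mem_inter.2 ⟨hiQ, hi⟩)
      · left
        rw [free, mem_sdiff, mem_sdiff]
        refine ⟨⟨mem_univ _, hiQ⟩, fun h => ?_⟩
        obtain ⟨j, hj, hij⟩ := mem_tst.1 h
        rw [low, mem_filter] at hi
        exact (mem_compl.1 hj) (hi.2 (mem_seg.2 hij))
    have h2 : 6 * (blk n (bs n k) b ∩ low (seg w) F).card ≤ 3 * (low (seg w) F).card :=
      (Nat.mul_le_mul_right _ hM6).trans hA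
    have h3 : (sg k).choose (2 * k) ≤ gp k := by
      unfold gp
      exact Nat.choose_le_pow _ _
    have h4 : n ≤ 2 * (gp k * (low (seg w) F).card) :=
      hlow.trans (Nat.mul_le_mul_left _ (Nat.mul_le_mul_right _ h3))
    set U := n / (8 * gp k) with hU
    have h5 : U * (8 * gp k) ≤ n := Nat.div_mul_le_self _ _
    have h6 : (low (seg w) F).card ≤ 2 * (free w F (blk n (bs n k) b)).card := by omega
    have h7 : 2 * (gp k * (low (seg w) F).card) ≤
        2 * (gp k * (2 * (free w F (blk n (bs n k) b)).card)) :=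
      Nat.mul_le_mul_left _ (Nat.mul_le_mul_left _ h6)
    have h8 : (4 * gp k) * (2 * U) ≤ (4 * gp k) * (free w F (blk n (bs n k) b)).card := by
      calc (4 * gp k) * (2 * U) = U * (8 * gp k) := by ring
        _ ≤ 2 * (gp k * (2 * (free w F (blk n (bs n k) b)).card)) := h5.trans (h4.trans h7)
        _ = _ := by ring
    exact Nat.le_of_mul_le_mul_left h8 (Nat.mul_pos (by norm_num) gp_pos)
  · have h1 : (tst w F).card ≤ 2 * k * (k * n / sg k + 1) := by
      unfold tst
      refine Finset.card_biUnion_le.trans ?_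
      refine (Finset.sum_le_sum (fun j _ => hh j)).trans ?_
      rw [Finset.sum_const, smul_eq_mul, hF]
    have hgn : sg k ≤ n := by
      have : sg k ≤ gp k := gp_ge hk
      omega
    have h2 : (k * n / sg k + 1) * sg k ≤ 2 * (k * n) := by
      have h3 : k * n / sg k * sg k ≤ k * n := Nat.div_mul_le_self _ _
      have h4 : n ≤ k * n := Nat.le_mul_of_pos_left _ hk
      rw [add_mul, one_mul]
      omega
    have h3 : (tst w F).card * sg k ≤ 4 * k ^ 2 * n := by
      calc (tst w F).card * sg k ≤ 2 * k * (k * n / sg k + 1) * sg k := Nat.mul_le_mul_right _ h1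
        _ = 2 * k * ((k * n / sg k + 1) * sg k) := by ring
        _ ≤ 2 * k * (2 * (k * n)) := Nat.mul_le_mul_left _ h2
        _ = 4 * k ^ 2 * n := by ring
    have h4 : n ≤ 2 * (n / bs n k) * bs n k := by
      have h5 := Nat.div_add_mod n (bs n k)
      have h6 := Nat.mod_lt n hq
      have h7 : bs n k ≤ bs n k * (n / bs n k) := Nat.le_mul_of_pos_right _ (by omega)
      have h8 : 2 * (n / bs n k) * bs n k = 2 * (bs n k * (n / bs n k)) := by ring
      omega
    set c := (blk n (bs n k) b ∩ tst w F).card with hc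
    have h5 : n * (c * sg k) ≤ n * (24 * k ^ 2 * bs n k) := by
      calc n * (c * sg k) ≤ (2 * (n / bs n k) * bs n k) * (c * sg k) := Nat.mul_le_mul_right _ h4
        _ = 2 * bs n k * sg k * ((n / bs n k) * c) := by ring
        _ ≤ 2 * bs n k * sg k * (3 * (tst w F).card) := Nat.mul_le_mul_left _ hD
        _ = 6 * bs n k * ((tst w F).card * sg k) := by ring
        _ ≤ 6 * bs n k * (4 * k ^ 2 * n) := Nat.mul_le_mul_left _ h3
        _ = n * (24 * k ^ 2 * bs n k) := by ring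
    have h6 : c * sg k ≤ 24 * k ^ 2 * bs n k :=
      Nat.le_of_mul_le_mul_left h5 (by omega)
    exact le_tb h6

lemma sets_le (hk : 1 ≤ k) (hn : 8 * gp k ≤ n) {b : ℕ} (hb : b < n / bs n k) :
    ((blk n (bs n k) b).powerset.filter (fun s => s.card ≤ tb n k)).card ≤
      2 ^ (n / (8 * gp k)) := by
  have hs : (24 * k ^ 2 * rh k + 2) * (22 + 8 * k * rh k) ≤ 2 ^ rh k := segs_large hk
  have hc : (blk n (bs n k) b).card = bs n k := card_blk (bs_pos hn) hb
  apply card_small_sets (ρ := rh k)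
  rw [hc]
  have h1 : tb n k * 2 ^ rh k ≤ 24 * k ^ 2 * bs n k := tb2
  calc rh k * tb n k * 2 ^ rh k + 2 * bs n k = rh k * (tb n k * 2 ^ rh k) + 2 * bs n k := by ring
    _ ≤ rh k * (24 * k ^ 2 * bs n k) + 2 * bs n k := by
        have := Nat.mul_le_mul_left (rh k) h1
        omega
    _ = n / (8 * gp k) * ((24 * k ^ 2 * rh k + 2) * (22 + 8 * k * rh k)) := by
        rw [bs_eq]
        ring
    _ ≤ n / (8 * gp k) * 2 ^ rh k := Nat.mul_le_mul_left _ hs

lemma choose_bs (hk : 1 ≤ k) (hn : 8 * gp k ≤ n) :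
    n.choose (2 * (n / (8 * gp k))) * 2 ^ (n / (8 * gp k)) ≤ 2 ^ (bs n k - tb n k) := by
  have hs := segs hk
  obtain ⟨u, hu⟩ : ∃ u, u = n / (8 * gp k) := ⟨_, rfl⟩
  rw [← hu]
  have hg8 : 0 < 8 * gp k := Nat.mul_pos (by norm_num) gp_pos
  have hu1 : 1 ≤ u := by
    rw [hu]
    exact Nat.div_pos hn hg8
  have h1 : n ≤ 2 ^ (3 + 2 * k * rh k) * (2 * u) := by
    have h2 := Nat.div_add_mod n (8 * gp k)
    have h3 := Nat.mod_lt n hg8
    rw [← hu] at h2
    have h4 : 2 ^ (3 + 2 * k * rh k) * (2 * u) = 2 * (8 * gp k * u) := by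
      rw [gp_two, pow_add]
      ring
    have h5 : 8 * gp k ≤ 8 * gp k * u := Nat.le_mul_of_pos_right _ hu1
    rw [h4]
    omega
  have h2 := choose_le hu1 h1
  have h3 : 2 * tb n k ≤ bs n k := by
    have h4 : tb n k * sg k ≤ 24 * k ^ 2 * bs n k := tb_le
    have h5 : 48 * k ^ 2 ≤ sg k := by
      refine le_trans ?_ hs
      have h1 : 1 ≤ rh k := rh_pos
      calc 48 * k ^ 2 ≤ 24 * k ^ 2 * 1 * 22 := by omega
        _ ≤ (24 * k ^ 2 * rh k + 2) * (22 + 8 * k * rh k) := by
            apply Nat.mul_le_mul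
            · have := Nat.mul_le_mul_left (24 * k ^ 2) h1
              omega
            · omega
    have h6 : sg k * (2 * tb n k) ≤ sg k * bs n k := by
      calc sg k * (2 * tb n k) = 2 * (tb n k * sg k) := by ring
        _ ≤ 2 * (24 * k ^ 2 * bs n k) := Nat.mul_le_mul_left _ h4
        _ = 48 * k ^ 2 * bs n k := by ring
        _ ≤ sg k * bs n k := Nat.mul_le_mul_right _ h5
    exact Nat.le_of_mul_le_mul_left h6 sg_pos
  have h4 : bs n k = 2 * (u * (11 + 4 * k * rh k)) := by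
    rw [bs_eq, ← hu]
    ring
  calc n.choose (2 * u) * 2 ^ u ≤ 2 ^ (2 * u * (3 + 2 * k * rh k + 2)) * 2 ^ u :=
        Nat.mul_le_mul_right _ h2
    _ = 2 ^ (u * (11 + 4 * k * rh k)) := by
        rw [← pow_add]
        congr 1
        ring
    _ ≤ 2 ^ (bs n k - tb n k) := Nat.pow_le_pow_right (by norm_num) (by omega)

open Classical in
/-- a subset of prescribed size -/
noncomputable def trim (c : ℕ) (s : Finset (Fin n)) : Finset (Fin n) :=
  if h : c ≤ s.card then (Finset.exists_subset_card_eq h).choose else ∅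

lemma trim_sub (c : ℕ) (s : Finset (Fin n)) : trim c s ⊆ s := by
  unfold trim
  split_ifs with h
  · exact (Finset.exists_subset_card_eq h).choose_spec.1
  · exact empty_subset _

lemma card_trim {c : ℕ} {s : Finset (Fin n)} (h : c ≤ s.card) : (trim c s).card = c := by
  unfold trim
  rw [dif_pos h]
  exact (Finset.exists_subset_card_eq h).choose_spec.2

theorem fiber (hk : 1 ≤ k) (hn : 8 * gp k ≤ n) {P : Finset (Fin n → Bool)}
    {w : (Fin n → Bool) → Fin (sg k) → List (Fin n × Bool)}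
    {S : Fin (sg k) → Set (List (Fin n × Bool))} {f : (Fin n → Bool) → Bool} {a m : ℕ}
    (hag : ∀ x ∈ P, ∀ j, Agrees x (w x j)) (hmem : ∀ x ∈ P, ∀ j, w x j ∈ S j)
    (hamb : ∀ (z : Fin n → Bool) (j : Fin (sg k)),
      {V | ∃ l ∈ S j, Agrees z l ∧ vars l = V}.encard ≤ a)
    (hsound : ∀ z, (∀ j, ∃ l ∈ S j, Agrees z l) → f z = true)
    (hf : RectFree f m) (ha : 1 ≤ a)
    (hsum : ∀ x ∈ P, ∑ i, (seg (w x) i).card ≤ k * n)
    (hh : ∀ x ∈ P, ∀ j, (vars (w x j)).card ≤ k * n / sg k + 1) :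
    P.card * 2 ^ (n / (8 * gp k)) ≤ 2 ^ sg k * n * (2 * (m * (2 ^ n * a ^ sg k))) := by
  classical
  have hn0 : 0 < n := lt_of_lt_of_le (Nat.mul_pos (by norm_num) gp_pos) hn
  obtain ⟨u, hu⟩ : ∃ u, u = n / (8 * gp k) := ⟨_, rfl⟩
  rw [← hu]
  have hex : ∀ x : Fin n → Bool, ∃ t : Finset (Fin (sg k)) × Fin n, x ∈ P →
      Good (w x) t.1 t.2.val := by
    intro x
    by_cases hx : x ∈ P
    · obtain ⟨F, b, hb⟩ := exists_good hk hn (hsum x hx) (hh x hx)
      exact ⟨(F, ⟨b, lt_of_lt_of_le hb.1 (Nat.div_le_self _ _)⟩), fun _ => hb⟩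
    · exact ⟨(∅, ⟨0, hn0⟩), fun h => absurd h hx⟩
  choose T hT using hex
  have key : ∀ t : Finset (Fin (sg k)) × Fin n, (P.filter (fun x => T x = t)).card * 2 ^ u ≤
      2 * (m * (2 ^ n * a ^ sg k)) := by
    intro t
    set P' := P.filter (fun x => T x = t) with hP'
    rcases P'.eq_empty_or_nonempty with h0 | ⟨x0, hx0⟩
    · rw [h0, card_empty, zero_mul]
      exact Nat.zero_le _
    have hP : ∀ x ∈ P', x ∈ P ∧ T x = t := fun x hx => mem_filter.1 hx
    have hg : ∀ x ∈ P', Good (w x) t.1 t.2.val := by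
      intro x hx
      have h1 := hT x (hP x hx).1
      rwa [(hP x hx).2] at h1
    set Q := blk n (bs n k) t.2.val with hQ
    have hD : Dat P' w S := ⟨fun x hx => hag x (hP x hx).1, fun x hx => hmem x (hP x hx).1⟩
    obtain ⟨P1, P2, h1, h2, h3⟩ := card_P (F := t.1) (Q := Q) (tr := trim (2 * u))
      (trim_sub _) hD hsound hf ha hamb (fun x hx => card_trim (by rw [hu]; exact (hg x hx).2.1))
      (fun x hx => (hg x hx).2.2)
    have hb := (hg x0 hx0).1
    have hc : Q.card = bs n k := card_blk (bs_pos hn) hb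
    rw [hc] at h3
    have h4 := sets_le hk hn hb
    have h5 := choose_bs hk hn
    rw [← hu] at h4 h5
    have h6 : P1 * 2 ^ u ≤ m * (2 ^ n * a ^ sg k) := by
      have h7 : P1 * 2 ^ u * 2 ^ u ≤ m * (2 ^ n * a ^ sg k) * 2 ^ u := by
        calc P1 * 2 ^ u * 2 ^ u = P1 * 2 ^ (2 * u) := by
              rw [two_mul, pow_add]
              ring
          _ ≤ m * (2 ^ n * (a ^ sg k * (Q.powerset.filter (fun s => s.card ≤ tb n k)).card)) := h2
          _ ≤ m * (2 ^ n * (a ^ sg k * 2 ^ u)) := by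
              apply Nat.mul_le_mul_left
              apply Nat.mul_le_mul_left
              exact Nat.mul_le_mul_left _ h4
          _ = m * (2 ^ n * a ^ sg k) * 2 ^ u := by ring
      exact Nat.le_of_mul_le_mul_right h7 (by positivity)
    have h8 : P2 * 2 ^ u ≤ m * (2 ^ n * a ^ sg k) := by
      have h9 : P2 * 2 ^ u * 2 ^ (bs n k - tb n k) ≤
          m * (2 ^ n * a ^ sg k) * 2 ^ (bs n k - tb n k) := by
        calc P2 * 2 ^ u * 2 ^ (bs n k - tb n k) = P2 * 2 ^ (bs n k - tb n k) * 2 ^ u := by ring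
          _ ≤ m * (2 ^ n * (a ^ sg k * n.choose (2 * u))) * 2 ^ u := Nat.mul_le_mul_right _ h3
          _ = m * (2 ^ n * a ^ sg k) * (n.choose (2 * u) * 2 ^ u) := by ring
          _ ≤ _ := Nat.mul_le_mul_left _ h5
      exact Nat.le_of_mul_le_mul_right h9 (by positivity)
    calc P'.card * 2 ^ u ≤ (P1 + P2) * 2 ^ u := Nat.mul_le_mul_right _ h1
      _ = P1 * 2 ^ u + P2 * 2 ^ u := by ring
      _ ≤ 2 * (m * (2 ^ n * a ^ sg k)) := by omega
  have hs1 : P.card = ∑ t : Finset (Fin (sg k)) × Fin n, (P.filter (fun x => T x = t)).card :=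
    Finset.card_eq_sum_card_fiberwise (f := T) (t := univ) (fun x _ => mem_coe.2 (mem_univ _))
  calc P.card * 2 ^ u = ∑ t : Finset (Fin (sg k)) × Fin n,
        (P.filter (fun x => T x = t)).card * 2 ^ u := by rw [hs1, Finset.sum_mul]
    _ ≤ ∑ _t : Finset (Fin (sg k)) × Fin n, 2 * (m * (2 ^ n * a ^ sg k)) :=
        Finset.sum_le_sum (fun t _ => key t)
    _ = _ := by
        rw [Finset.sum_const, smul_eq_mul, card_univ, Fintype.card_prod, Fintype.card_finset,
          Fintype.card_fin, Fintype.card_fin]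

end

end Pool.Agent.Lib_helper26.AC
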