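import Pool.Agent.Lib_helper20.LG.Seg
import Pool.Agent.Lib_helper26.AC.Fiber

/-!
The core of the lower bound.
-/

namespace Pool.Agent.Lib_helper26.AC

open Finset Pool.Agent.Lib_helper20.SRO Pool.Agent.Lib_helper20.LG

variable {n r : ℕ}

lemma card_vars_le' (l : List (Fin n × Bool)) : (vars l).card ≤ l.length := by
  have := List.toFinset_card_le (l.map Prod.fst)
  rwa [List.length_map] at this

lemma sum_seg' (w : Fin r → List (Fin n × Bool)) :
    ∑ i, (seg w i).card = ∑ j, (vars (w j)).card := by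
  have h1 : ∀ i, (seg w i).card = ∑ j : Fin r, if i ∈ vars (w j) then 1 else 0 := by
    intro i
    rw [seg, Finset.card_filter]
  have h2 : ∀ j, (vars (w j)).card = ∑ i : Fin n, if i ∈ vars (w j) then 1 else 0 := by
    intro j
    rw [← Finset.card_filter, Finset.filter_mem_eq_inter, Finset.univ_inter]
  simp only [h1, h2]
  exact Finset.sum_comm

/-- the bound is smaller than the square root -/
lemma root_le {c B n : ℕ} (hc : c ^ 2 ≤ n) (hB : B * B ≤ n) : c * B ≤ n := by
  have h1 : (c * B) ^ 2 ≤ n ^ 2 := by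
    calc (c * B) ^ 2 = c ^ 2 * (B * B) := by ring
      _ ≤ n * n := Nat.mul_le_mul hc hB
      _ = n ^ 2 := by ring
  exact (Nat.pow_le_pow_iff_left (by norm_num)).1 h1

/-- the numerical end of the proof -/
lemma numeric {n r R B a N A m : ℕ} (hr : 1 ≤ r) (hR : 1 ≤ R) (hB : 128 * (r * R) ≤ B)
    (hn : B * B ≤ n) (ha : 1 ≤ a) (hm : m ≤ 2 * n)
    (hA : 2 ^ n ≤ 2 ^ 12 * A)
    (hA2 : A * 2 ^ (n / (8 * R)) ≤ N ^ (r + 1) * (2 ^ r * n * (2 * (m * (2 ^ n * a ^ r))))) :
    (2 : ℝ) ^ ((n : ℝ) / B) ≤ a * N := by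
  by_contra hcon
  rw [not_le] at hcon
  have hB0 : 0 < B := lt_of_lt_of_le (by positivity) hB
  have hBr : (0 : ℝ) < B := by exact_mod_cast hB0
  have hn0 : 0 < n := lt_of_lt_of_le (by positivity) hn
  set ℓ := Nat.log 2 n with hℓ
  have hnℓ : n ≤ 2 ^ (ℓ + 1) := (Nat.lt_pow_succ_log_self (by norm_num) n).le
  set u := n / (8 * R) with hu
  -- the main inequality
  have h1 : 2 ^ u ≤ 2 ^ (14 + r + 2 * (ℓ + 1)) * (a * N) ^ (r + 1) := by
    have h2 : 2 ^ n * 2 ^ u ≤ 2 ^ n * (2 ^ (14 + r + 2 * (ℓ + 1)) * (a * N) ^ (r + 1)) := by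
      calc 2 ^ n * 2 ^ u ≤ 2 ^ 12 * A * 2 ^ u := Nat.mul_le_mul_right _ hA
        _ = 2 ^ 12 * (A * 2 ^ u) := by ring
        _ ≤ 2 ^ 12 * (N ^ (r + 1) * (2 ^ r * n * (2 * (m * (2 ^ n * a ^ r))))) :=
            Nat.mul_le_mul_left _ hA2
        _ ≤ 2 ^ 12 * (N ^ (r + 1) * (2 ^ r * n * (2 * (2 * n * (2 ^ n * a ^ (r + 1)))))) := by
            gcongr
            omega
        _ = 2 ^ n * (2 ^ 14 * 2 ^ r * (n * n) * (a * N) ^ (r + 1)) := by
            rw [mul_pow]
            ring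
        _ ≤ 2 ^ n * (2 ^ 14 * 2 ^ r * (2 ^ (ℓ + 1) * 2 ^ (ℓ + 1)) * (a * N) ^ (r + 1)) := by
            gcongr
        _ = _ := by
            congr 2
            rw [← pow_add, ← pow_add, ← pow_add]
            congr 1
            ring
    exact Nat.le_of_mul_le_mul_left h2 (by positivity)
  have h2 : (2 : ℝ) ^ (u : ℝ) ≤ 2 ^ (((14 + r + 2 * (ℓ + 1) : ℕ) : ℝ) + (n : ℝ) / B * (r + 1)) := by
    rw [Real.rpow_natCast, Real.rpow_add (by norm_num), Real.rpow_natCast]
    have h3 : ((2 ^ u : ℕ) : ℝ) ≤ ((2 ^ (14 + r + 2 * (ℓ + 1)) * (a * N) ^ (r + 1) : ℕ) : ℝ) := by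
      exact_mod_cast h1
    push_cast at h3 ⊢
    refine h3.trans (mul_le_mul_of_nonneg_left ?_ (by positivity))
    calc ((a : ℝ) * N) ^ (r + 1) ≤ ((2 : ℝ) ^ ((n : ℝ) / B)) ^ (r + 1) :=
          pow_le_pow_left₀ (by positivity) hcon.le _
      _ = 2 ^ ((n : ℝ) / B * (r + 1)) := by
          rw [← Real.rpow_natCast, ← Real.rpow_mul (by norm_num)]
          push_cast
          rfl
  have h3 := (Real.rpow_le_rpow_left_iff (by norm_num : (1 : ℝ) < 2)).1 h2
  -- the sizes
  have hRr : (0 : ℝ) < R := by exact_mod_cast hR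
  have hrr : (1 : ℝ) ≤ r := by exact_mod_cast hr
  set D : ℝ := (n : ℝ) / (64 * R) with hD
  have hDpos : 0 < D := by
    have : (0 : ℝ) < n := by exact_mod_cast hn0
    positivity
  have h128 : 128 ≤ B := by nlinarith [Nat.mul_le_mul hr hR]
  have hn2 : 2 ^ 14 ≤ n := by
    calc 2 ^ 14 = 128 * 128 := by norm_num
      _ ≤ B * B := Nat.mul_le_mul h128 h128
      _ ≤ n := hn
  have e1 : 8 * D - 1 ≤ (u : ℝ) := by
    have h5 : (n : ℝ) / (8 * R) < (u : ℝ) + 1 := by
      have := Nat.lt_floor_add_one ((n : ℝ) / ((8 * R : ℕ) : ℝ))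
      rw [Nat.floor_div_eq_div] at this
      push_cast at this
      rw [hu]
      exact this
    have h6 : 8 * D = (n : ℝ) / (8 * R) := by
      rw [hD]
      field_simp
      norm_num
    linarith
  have e2 : (n : ℝ) / B * (r + 1) ≤ D := by
    rw [hD, div_mul_eq_mul_div, div_le_div_iff₀ hBr (by positivity)]
    have h5 : (128 * (r * R) : ℝ) ≤ B := by exact_mod_cast hB
    have h6 : ((r : ℝ) + 1) * (64 * R) ≤ B := by nlinarith
    have h7 : (0 : ℝ) ≤ n := Nat.cast_nonneg n
    calc (n : ℝ) * (r + 1) * (64 * R) = n * ((r + 1) * (64 * R)) := by ring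
      _ ≤ n * B := mul_le_mul_of_nonneg_left h6 h7
  have e3 : ((14 + r : ℕ) : ℝ) ≤ D := by
    rw [hD, le_div_iff₀ (by positivity)]
    have h5 : (14 + r) * (64 * R) ≤ n := by
      calc (14 + r) * (64 * R) ≤ (15 * r) * (64 * R) := Nat.mul_le_mul_right _ (by omega)
        _ = 960 * (r * R) := by ring
        _ ≤ 128 * (128 * (r * R)) := by omega
        _ ≤ B * B := Nat.mul_le_mul h128 hB
        _ ≤ n := hn
    exact_mod_cast h5
  have e4 : ((2 * (ℓ + 1) : ℕ) : ℝ) ≤ D := by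
    rw [hD, le_div_iff₀ (by positivity)]
    have hp : ∀ p : ℕ, 6 ≤ p → (p + 1) ^ 2 ≤ 2 ^ p := by
      intro p hp
      induction p, hp using Nat.le_induction with
      | base => norm_num
      | succ p hp ih =>
        rw [pow_succ 2 p]
        nlinarith
    have hl : 14 ≤ ℓ := Nat.le_log_of_pow_le (by norm_num) hn2
    have h6 : (ℓ + 1) ^ 2 ≤ n := (hp _ (by omega)).trans (Nat.pow_log_le_self 2 hn0.ne')
    have h7 := root_le h6 hn
    have h5 : 2 * (ℓ + 1) * (64 * R) ≤ n := by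
      calc 2 * (ℓ + 1) * (64 * R) ≤ (ℓ + 1) * (128 * (r * R)) := by
            have : R ≤ r * R := Nat.le_mul_of_pos_left _ hr
            calc 2 * (ℓ + 1) * (64 * R) = (ℓ + 1) * (128 * R) := by ring
              _ ≤ (ℓ + 1) * (128 * (r * R)) :=
                Nat.mul_le_mul_left _ (Nat.mul_le_mul_left _ this)
        _ ≤ (ℓ + 1) * B := Nat.mul_le_mul_left _ hB
        _ ≤ n := h7
    exact_mod_cast h5
  have e5 : ((14 + r + 2 * (ℓ + 1) : ℕ) : ℝ) = ((14 + r : ℕ) : ℝ) + ((2 * (ℓ + 1) : ℕ) : ℝ) := by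
    push_cast
    ring
  rw [e5] at h3
  have e6 : (14 : ℝ) ≤ D := by
    refine le_trans ?_ e3
    push_cast
    linarith
  linarith

/-- The lower bound for a program all of whose accepted inputs are accepted by a function without
large rectangles, and which accepts many inputs by short walks. -/
theorem core2 {k n c : ℕ} (hk : 1 ≤ k) (hn : bnd k * bnd k ≤ n) (hc : 1 ≤ c) {N : Type} [Fintype N]
    {G : NBP (Fin n) N} {f : (Fin n → Bool) → Bool} {m a : ℕ} {Z : Finset (Fin n → Bool)}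
    (hamb : ∀ (b : Fin n → Bool) (u v : N),
      {V | ∃ l, Walk G u v l ∧ Agrees b l ∧ vars l = V}.encard ≤ a)
    (htests : ∀ b ∈ Z, ∃ l, Walk G G.source G.sink l ∧ Agrees b l ∧ l.length ≤ k * n)
    (hcomp : ∀ b, G.Accepts b → f b = true) (hm : m ≤ 2 * n) (hrect : RectFree f m)
    (hdense : 2 ^ n ≤ 2 ^ 12 * (c * Z.card)) :
    (2 : ℝ) ^ ((n : ℝ) / bnd k) ≤ c * a * Fintype.card N := by
  classical
  have hB : 128 * (sg k * gp k) ≤ bnd k := bnd_ge hk
  have hs0 : 0 < sg k := sg_pos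
  have hg0 : 0 < gp k := gp_pos
  have h8 : 8 * gp k ≤ n := by
    have h1 : gp k ≤ sg k * gp k := Nat.le_mul_of_pos_left _ hs0
    have h2 : 1 ≤ bnd k := by
      have := Nat.mul_pos hs0 hg0
      omega
    have h3 : bnd k ≤ bnd k * bnd k := Nat.le_mul_of_pos_left _ h2
    omega
  have ha : 1 ≤ a := by
    have h1 := hamb (fun _ => false) G.source G.source
    have h2 : ({∅} : Set (Finset (Fin n))).encard ≤ a := by
      refine le_trans (Set.encard_le_encard ?_) h1
      rintro l rfl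
      exact ⟨[], Walk.nil _, fun t ht => by simp at ht, rfl⟩
    rw [Set.encard_singleton] at h2
    exact_mod_cast h2
  set h : ℕ := k * n / sg k + 1 with hh
  have hh2 : k * n ≤ sg k * h := by
    have h2 := Nat.div_add_mod (k * n) (sg k)
    have h3 := Nat.mod_lt (k * n) hs0
    have h4 : sg k * h = sg k * (k * n / sg k) + sg k := by
      rw [hh]
      ring
    omega
  -- the walks
  have hex : ∀ x : Fin n → Bool, ∃ (p : Fin (sg k + 1) → N)
      (w : Fin (sg k) → List (Fin n × Bool)),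
      x ∈ Z → p 0 = G.source ∧ Walk G (p (Fin.last (sg k))) G.sink [] ∧
        (∀ j : Fin (sg k), Walk G (p j.castSucc) (p j.succ) (w j)) ∧ (∀ j, (w j).length ≤ h) ∧
        (∀ j, Agrees x (w j)) ∧ ∑ j, (w j).length ≤ k * n := by
    intro x
    by_cases hx : x ∈ Z
    · obtain ⟨l, hl, hag, hlen⟩ := htests x hx
      obtain ⟨p, s, hp0, hpr, hs, hmem, hsum⟩ := Pool.Agent.Lib_helper20.LG.cut h (sg k)
        G.source G.sink l hl (hlen.trans hh2)
      refine ⟨fun j => p j, fun j => s j, fun _ => ⟨hp0, hpr, ?_, ?_, ?_, ?_⟩⟩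
      · intro j
        exact (hs j j.2).1
      · intro j
        exact (hs j j.2).2
      · intro j t ht
        exact hag t ((hmem t).2 ⟨j, j.2, ht⟩)
      · rw [Finset.sum_range] at hsum
        rw [hsum]
        exact hlen
    · exact ⟨fun _ => G.source, fun _ => [], fun h => absurd h hx⟩
  choose p w hw using hex
  have key : ∀ P : Fin (sg k + 1) → N, (Z.filter (fun x => p x = P)).card *
      2 ^ (n / (8 * gp k)) ≤ 2 ^ sg k * n * (2 * (m * (2 ^ n * a ^ sg k))) := by
    intro P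
    rcases (Z.filter (fun x => p x = P)).eq_empty_or_nonempty with h0 | ⟨x0, hx0⟩
    · rw [h0, card_empty, zero_mul]
      exact Nat.zero_le _
    have hmemP : ∀ x ∈ Z.filter (fun x => p x = P), x ∈ Z ∧ p x = P := by
      intro x hx
      rw [mem_filter] at hx
      exact hx
    apply fiber (w := w) (S := fun j => {l | Walk G (P j.castSucc) (P j.succ) l}) (f := f) hk h8
    · intro x hx j
      exact (hw x (hmemP x hx).1).2.2.2.2.1 j
    · intro x hx j
      have h1 := (hw x (hmemP x hx).1).2.2.1 j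
      rwa [(hmemP x hx).2] at h1
    · intro z j
      refine le_trans (Set.encard_le_encard ?_) (hamb z (P j.castSucc) (P j.succ))
      rintro V ⟨l, hl, hz, hV⟩
      exact ⟨l, hl, hz, hV⟩
    · intro z hz
      obtain ⟨l, hl, hzl⟩ := glue P hz (sg k) le_rfl
      have h1 := hw x0 (hmemP x0 hx0).1
      rw [(hmemP x0 hx0).2] at h1
      rw [h1.1] at hl
      have h2 := Pool.Agent.Lib_helper45.SRO.walk_append hl h1.2.1
      rw [List.append_nil] at h2
      exact hcomp z ⟨l, h2, hzl⟩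
    · exact hrect
    · exact ha
    · intro x hx
      have h1 := hw x (hmemP x hx).1
      rw [sum_seg']
      exact (Finset.sum_le_sum (fun j _ => card_vars_le' _)).trans h1.2.2.2.2.2
    · intro x hx j
      have h1 := hw x (hmemP x hx).1
      exact (card_vars_le' _).trans (h1.2.2.2.1 j)
  have hcard : Z.card * 2 ^ (n / (8 * gp k)) ≤ Fintype.card N ^ (sg k + 1) *
      (2 ^ sg k * n * (2 * (m * (2 ^ n * a ^ sg k)))) := by
    have h1 : Z.card = ∑ P : Fin (sg k + 1) → N, (Z.filter (fun x => p x = P)).card :=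
      Finset.card_eq_sum_card_fiberwise (f := p) (t := univ) (fun x _ => mem_coe.2 (mem_univ _))
    calc Z.card * 2 ^ (n / (8 * gp k)) = ∑ P : Fin (sg k + 1) → N,
          (Z.filter (fun x => p x = P)).card * 2 ^ (n / (8 * gp k)) := by
          rw [h1, Finset.sum_mul]
      _ ≤ ∑ _P : Fin (sg k + 1) → N, 2 ^ sg k * n * (2 * (m * (2 ^ n * a ^ sg k))) :=
          Finset.sum_le_sum (fun P _ => key P)
      _ = _ := by
          rw [Finset.sum_const, smul_eq_mul, card_univ, Fintype.card_fun, Fintype.card_fin]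
  have hcard2 : c * Z.card * 2 ^ (n / (8 * gp k)) ≤ Fintype.card N ^ (sg k + 1) *
      (2 ^ sg k * n * (2 * (m * (2 ^ n * (c * a) ^ sg k)))) := by
    have h1 : c ≤ c ^ sg k := Nat.le_self_pow hs0.ne' c
    calc c * Z.card * 2 ^ (n / (8 * gp k)) = c * (Z.card * 2 ^ (n / (8 * gp k))) := by ring
      _ ≤ c ^ sg k * (Fintype.card N ^ (sg k + 1) *
          (2 ^ sg k * n * (2 * (m * (2 ^ n * a ^ sg k))))) := Nat.mul_le_mul h1 hcard
      _ = _ := by
          rw [mul_pow]
          ring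
  have h1 := numeric (a := c * a) hs0 hg0 hB hn (Nat.mul_pos hc ha) hm hdense hcard2
  push_cast at h1
  exact h1

/-- The lower bound for a dense function without large rectangles. -/
theorem core {k n : ℕ} (hk : 1 ≤ k) (hn : bnd k * bnd k ≤ n) {N : Type} [Fintype N]
    {G : NBP (Fin n) N} {f : (Fin n → Bool) → Bool} {m a : ℕ}
    (hamb : ∀ (b : Fin n → Bool) (u v : N),
      {V | ∃ l, Walk G u v l ∧ Agrees b l ∧ vars l = V}.encard ≤ a)
    (htests : ∀ b, G.Accepts b → ∃ l, Walk G G.source G.sink l ∧ Agrees b l ∧ l.length ≤ k * n)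
    (hcomp : G.Computes f) (hm : m ≤ 2 * n) (hrect : RectFree f m)
    (hdense : 2 ^ n ≤ 2 ^ 12 * (univ.filter (fun b => f b = true)).card) :
    (2 : ℝ) ^ ((n : ℝ) / bnd k) ≤ a * Fintype.card N := by
  have h1 := core2 (c := 1) (Z := univ.filter (fun b => f b = true)) hk hn le_rfl hamb
    (fun b hb => htests b ((hcomp b).2 (mem_filter.1 hb).2)) (fun b hb => (hcomp b).1 hb) hm hrect
    (by rw [one_mul]; exact hdense)
  simpa using h1

end Pool.Agent.Lib_helper26.AC
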