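import Pool.Agent.Lib_helper26.AC.Model

/-!
# Counting the pairs of a point and a condition
-/

namespace Pool.Agent.Lib_helper26.AC

open Finset Pool.Agent.Lib_helper20.SRO

/-- the number of binary digits of the threshold -/
def digs (n L : ℕ) : ℕ := Nat.log 2 (subs n * L) + 1

/-- The input variables: coefficients and right sides of the equations, a polarity bit, the digits
of a threshold, `L` points. -/
abbrev VarT (n L : ℕ) : Type := (Coef n ⊕ (Unit ⊕ Fin (digs n L))) ⊕ (Fin L × Fin n)

/-- the number with given binary digits -/
def binary {m : ℕ} (z : Fin m → Bool) : ℕ := ∑ i : Fin m, if z i then 2 ^ i.val else 0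

/-- More than `θ` pairs of a subspace and a point satisfy the condition that the point is in the
subspace, or the negation of this (if the polarity bit is `true`); the threshold `θ` is given by its
binary digits. -/
def cntF (n L : ℕ) (v : VarT n L → Bool) : Bool :=
  decide (binary (fun i => v (Sum.inl (Sum.inr (Sum.inr i)))) <
    (univ.filter (fun q : Fin (subs n) × Fin L =>
      inSub (fun i j => v (Sum.inl (Sum.inl (Sum.inl (q.1, i, j)))))
        (fun i => v (Sum.inl (Sum.inl (Sum.inr (q.1, i))))) (fun j => v (Sum.inr (q.2, j))) ≠
          v (Sum.inl (Sum.inr (Sum.inl ()))))).card)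

end Pool.Agent.Lib_helper26.AC
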