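import Pool.Agent.Lib_helper20.SRO.Model3
import Pool.Agent.Lib_helper26.AC.ModelT

/-!
Counting the pairs of a point and a condition is in the PP mode (after the module PPA of
Lib_helper20).
-/

namespace Pool.Agent.Lib_helper26.AC.PT

open Finset Pool.Agent.Lib_helper20.SRO

lemma mod_two_pow_succ' (x i : ℕ) :
    x % 2 ^ (i + 1) = x % 2 ^ i + if x.testBit i then 2 ^ i else 0 := by
  rw [Nat.mod_pow_succ, Nat.testBit_eq_decide_div_mod_eq]
  rcases Nat.mod_two_eq_zero_or_one (x / 2 ^ i) with h | h
  · rw [h]
    simp
  · rw [h]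
    simp

lemma binary_testBit (m x : ℕ) : binary (fun i : Fin m => x.testBit i) = x % 2 ^ m := by
  induction m with
  | zero => simp [binary, Nat.mod_one]
  | succ m ih =>
    rw [mod_two_pow_succ', ← ih, binary, Fin.sum_univ_castSucc]
    rfl

lemma binary_lt {m : ℕ} (z : Fin m → Bool) : binary z < 2 ^ m := by
  induction m with
  | zero => simp [binary]
  | succ m ih =>
    rw [binary, Fin.sum_univ_castSucc]
    have h := ih (fun i => z i.castSucc)
    rw [binary] at h
    simp only [Fin.val_castSucc, Fin.val_last] at h ⊢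
    rw [pow_succ]
    split_ifs <;> omega

variable {n L : ℕ}

/-- a bit of a point -/
abbrev tb (l : Fin L) (j : Fin n) : VarT n L := Sum.inr (l, j)
/-- a coefficient -/
abbrev tm (t : Fin (subs n)) (i : Fin (codim n)) (j : Fin n) : VarT n L :=
  Sum.inl (Sum.inl (Sum.inl (t, i, j)))
/-- a right side -/
abbrev tr (t : Fin (subs n)) (i : Fin (codim n)) : VarT n L :=
  Sum.inl (Sum.inl (Sum.inr (t, i)))
/-- the polarity bit -/
abbrev tp : VarT n L := Sum.inl (Sum.inr (Sum.inl ()))
/-- a digit of the threshold -/
abbrev tz (i : Fin (digs n L)) : VarT n L := Sum.inl (Sum.inr (Sum.inr i))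

/-- the coefficients of the variable `j` in the equations in `K` -/
def blkT (L : ℕ) (t : Fin (subs n)) (j : Fin n) (K : List (Fin (codim n))) : List (VarT n L) :=
  K.map (fun i => tm t i j)

/-- the right sides of the equations in `K` -/
def rhsT (L : ℕ) (t : Fin (subs n)) (K : List (Fin (codim n))) : List (VarT n L) :=
  K.map (fun i => tr t i)

/-- the variables for the coordinates in `J` -/
def blksT (t : Fin (subs n)) (l : Fin L) (J : List (Fin n)) : List (VarT n L) :=
  J.flatMap (fun j => tb l j :: blkT L t j (List.finRange (codim n)))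

/-- the order of the program for the subspace `t` and the point `l` -/
def ordT (t : Fin (subs n)) (l : Fin L) : List (VarT n L) :=
  blksT t l (List.finRange n) ++ (rhsT L t (List.finRange (codim n)) ++ [tp])

theorem mem_blkT {t : Fin (subs n)} {j : Fin n} {K : List (Fin (codim n))} {x : VarT n L} :
    x ∈ blkT L t j K ↔ ∃ i ∈ K, x = tm t i j := by
  unfold blkT
  rw [List.mem_map]
  exact exists_congr (fun i => and_congr_right (fun _ => eq_comm))

theorem mem_rhsT {t : Fin (subs n)} {K : List (Fin (codim n))} {x : VarT n L} :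
    x ∈ rhsT L t K ↔ ∃ i ∈ K, x = tr t i := by
  unfold rhsT
  rw [List.mem_map]
  exact exists_congr (fun i => and_congr_right (fun _ => eq_comm))

theorem nodup_blkT (t : Fin (subs n)) (j : Fin n) {K : List (Fin (codim n))} (hK : K.Nodup) :
    (blkT L t j K).Nodup := by
  refine hK.map (fun i i' h => ?_)
  simp only [Sum.inl.injEq, Prod.mk.injEq] at h
  exact h.2.1

theorem nodup_rhsT (t : Fin (subs n)) {K : List (Fin (codim n))} (hK : K.Nodup) :
    (rhsT L t K).Nodup := by
  refine hK.map (fun i i' h => ?_)
  simp only [Sum.inl.injEq, Sum.inr.injEq, Prod.mk.injEq] at h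
  exact h.2

theorem mem_blksT {t : Fin (subs n)} {l : Fin L} {J : List (Fin n)} {x : VarT n L} :
    x ∈ blksT t l J ↔ ∃ j ∈ J, x = tb l j ∨ ∃ i, x = tm t i j := by
  unfold blksT
  rw [List.mem_flatMap]
  refine exists_congr (fun i => and_congr_right (fun _ => ?_))
  rw [List.mem_cons, mem_blkT]
  simp [List.mem_finRange]

theorem nodup_blksT (t : Fin (subs n)) (l : Fin L) {J : List (Fin n)} (hJ : J.Nodup) :
    (blksT t l J).Nodup := by
  induction J with
  | nil => simp [blksT]
  | cons j J ih =>
    rw [List.nodup_cons] at hJ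
    have e : blksT t l (j :: J) = (tb l j :: blkT L t j (List.finRange (codim n))) ++
      blksT t l J := rfl
    rw [e, List.nodup_append]
    refine ⟨?_, ih hJ.2, ?_⟩
    · rw [List.nodup_cons]
      refine ⟨?_, nodup_blkT t j (List.nodup_finRange _)⟩
      intro h
      obtain ⟨i, _, h'⟩ := mem_blkT.1 h
      simp at h'
    · intro x hx y hy hxy
      subst hxy
      obtain ⟨j', hj', h'⟩ := mem_blksT.1 hy
      rw [List.mem_cons, mem_blkT] at hx
      rcases hx with hx | ⟨i, _, hx⟩
      · rcases h' with h' | ⟨i', h'⟩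
        · rw [hx] at h'
          simp only [Sum.inr.injEq, Prod.mk.injEq] at h'
          rw [h'.2] at hJ
          exact hJ.1 hj'
        · rw [hx] at h'
          simp at h'
      · rcases h' with h' | ⟨i', h'⟩
        · rw [hx] at h'
          simp at h'
        · rw [hx] at h'
          simp only [Sum.inl.injEq, Prod.mk.injEq] at h'
          rw [h'.2.2] at hJ
          exact hJ.1 hj'

theorem nodup_ordT (t : Fin (subs n)) (l : Fin L) : (ordT t l).Nodup := by
  rw [ordT, List.nodup_append]
  refine ⟨nodup_blksT t l (List.nodup_finRange n), ?_, ?_⟩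
  · rw [List.nodup_append]
    refine ⟨nodup_rhsT t (List.nodup_finRange _), by simp, ?_⟩
    intro x hx y hy hxy
    subst hxy
    rw [List.mem_singleton] at hy
    subst hy
    obtain ⟨i, _, h⟩ := mem_rhsT.1 hx
    simp at h
  · intro x hx y hy hxy
    subst hxy
    rw [List.mem_append, List.mem_singleton, mem_rhsT] at hy
    obtain ⟨j, _, h | ⟨i, h⟩⟩ := mem_blksT.1 hx
    · subst h
      rcases hy with ⟨i, _, h⟩ | h
      · simp at h
      · simp at h
    · subst h
      rcases hy with ⟨i, _, h⟩ | h
      · simp at h
      · simp at h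

/-- the states -/
abbrev StT (n : ℕ) : Type := (Fin (codim n) → ZMod 2) × Bool

/-- the step of the program -/
def stp (q : StT n) (x : VarT n L) (c : Bool) : StT n :=
  match x with
  | Sum.inr _ => (q.1, c)
  | Sum.inl (Sum.inl (Sum.inl (_, i, _))) =>
      (fun i' => if i' = i then q.1 i' + (if c && q.2 then 1 else 0) else q.1 i', q.2)
  | Sum.inl (Sum.inl (Sum.inr (_, i))) =>
      (fun i' => if i' = i then q.1 i' + (if c then 1 else 0) else q.1 i', q.2)
  | Sum.inl (Sum.inr _) => (q.1, c)

theorem stp_tm (q : StT n) (t : Fin (subs n)) (i : Fin (codim n)) (j : Fin n) (c : Bool) :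
    stp q (tm (L := L) t i j) c =
      (fun i' => if i' = i then q.1 i' + (if c && q.2 then 1 else 0) else q.1 i', q.2) := rfl

theorem stp_tr (q : StT n) (t : Fin (subs n)) (i : Fin (codim n)) (c : Bool) :
    stp q (tr (L := L) t i) c =
      (fun i' => if i' = i then q.1 i' + (if c then 1 else 0) else q.1 i', q.2) := rfl

theorem fold_blkT (v : VarT n L → Bool) (t : Fin (subs n)) (j : Fin n) (cur : Bool)
    {K : List (Fin (codim n))} (hK : K.Nodup) : ∀ (R : Fin (codim n) → ZMod 2),
    (blkT L t j K).foldl (fun q x => stp q x (v x)) (R, cur) =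
      ((fun i => if i ∈ K then R i + (if v (tm t i j) && cur then 1 else 0) else R i), cur) := by
  induction K with
  | nil => intro R; simp [blkT]
  | cons l0 K ih =>
    intro R
    rw [List.nodup_cons] at hK
    have e : blkT L t j (l0 :: K) = tm t l0 j :: blkT L t j K := rfl
    rw [e, List.foldl_cons, stp_tm, ih hK.2]
    congr 1
    funext l
    by_cases hl : l = l0
    · subst hl
      rw [if_neg hK.1, if_pos List.mem_cons_self, if_pos rfl]
    · have h1 : (l ∈ l0 :: K) ↔ l ∈ K := by
        rw [List.mem_cons]
        exact ⟨fun h => h.resolve_left hl, Or.inr⟩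
      simp only [hl, if_false, h1]

theorem fold_rhsT (v : VarT n L → Bool) (t : Fin (subs n)) (cur : Bool)
    {K : List (Fin (codim n))} (hK : K.Nodup) : ∀ (R : Fin (codim n) → ZMod 2),
    (rhsT L t K).foldl (fun q x => stp q x (v x)) (R, cur) =
      ((fun i => if i ∈ K then R i + (if v (tr t i) then 1 else 0) else R i), cur) := by
  induction K with
  | nil => intro R; simp [rhsT]
  | cons l0 K ih =>
    intro R
    rw [List.nodup_cons] at hK
    have e : rhsT L t (l0 :: K) = tr t l0 :: rhsT L t K := rfl
    rw [e, List.foldl_cons, stp_tr, ih hK.2]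
    congr 1
    funext l
    by_cases hl : l = l0
    · subst hl
      rw [if_neg hK.1, if_pos List.mem_cons_self, if_pos rfl]
    · have h1 : (l ∈ l0 :: K) ↔ l ∈ K := by
        rw [List.mem_cons]
        exact ⟨fun h => h.resolve_left hl, Or.inr⟩
      simp only [hl, if_false, h1]

theorem fold_blksT (v : VarT n L → Bool) (t : Fin (subs n)) (l : Fin L) (J : List (Fin n)) :
    ∀ (R : Fin (codim n) → ZMod 2) (cur : Bool), ∃ cur',
    (blksT t l J).foldl (fun q x => stp q x (v x)) (R, cur) =
      ((fun i => R i + (J.map (fun j =>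
        if v (tm t i j) && v (tb l j) then (1 : ZMod 2) else 0)).sum), cur') := by
  induction J with
  | nil => intro R cur; exact ⟨cur, by simp [blksT]⟩
  | cons j J ih =>
    intro R cur
    have e : blksT t l (j :: J) = (tb l j :: blkT L t j (List.finRange (codim n))) ++
      blksT t l J := rfl
    rw [e, List.foldl_append, List.foldl_cons]
    have e2 : stp (R, cur) (tb l j) (v (tb l j)) = (R, v (tb l j)) := rfl
    rw [e2, fold_blkT v t j _ (List.nodup_finRange _)]
    obtain ⟨cur', h⟩ := ih (fun i => if i ∈ List.finRange (codim n) then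
      R i + (if v (tm t i j) && v (tb l j) then 1 else 0) else R i) (v (tb l j))
    refine ⟨cur', ?_⟩
    rw [h]
    simp only [List.mem_finRange, if_true, List.map_cons, List.sum_cons, add_assoc]

theorem fold_ordT (v : VarT n L → Bool) (t : Fin (subs n)) (l : Fin L) :
    (ordT t l).foldl (fun q x => stp q x (v x)) ((fun _ => 0), true) =
      ((fun i => dot (fun j => v (tm t i j)) (fun j => v (tb l j)) + (if v (tr t i) then 1 else 0)),
        v tp) := by
  rw [ordT, List.foldl_append]
  obtain ⟨cur', h⟩ := fold_blksT v t l (List.finRange n) (fun _ => 0) true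
  rw [h, List.foldl_append, fold_rhsT v t _ (List.nodup_finRange _), List.foldl_cons,
    List.foldl_nil]
  simp only [stp, zero_add, dot, Fin.sum_univ_def, List.mem_finRange, if_true]

/-- the program for the subspace `t` and the point `l` -/
def prog (t : Fin (subs n)) (l : Fin L) : Obl (VarT n L) (StT n) where
  order := ordT t l
  nodup := nodup_ordT t l
  init := ((fun _ => 0), true)
  step := stp
  acc := fun q => decide (decide (∀ i, q.1 i = 0) ≠ q.2)

theorem prog_out (t : Fin (subs n)) (l : Fin L) (v : VarT n L → Bool) :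
    (prog t l).out v = decide (inSub (fun i j => v (Sum.inl (Sum.inl (Sum.inl (t, i, j)))))
      (fun i => v (Sum.inl (Sum.inl (Sum.inr (t, i))))) (fun j => v (Sum.inr (l, j))) ≠
        v (Sum.inl (Sum.inr (Sum.inl ())))) := by
  have h : (prog t l).out v = decide (decide (∀ i, ((ordT t l).foldl (fun q x => stp q x (v x))
      ((fun _ => 0), true)).1 i = 0) ≠ ((ordT t l).foldl (fun q x => stp q x (v x))
      ((fun _ => 0), true)).2) := rfl
  rw [h, fold_ordT]
  simp only [CharTwo.add_eq_zero]
  rfl

/-! ### the threshold -/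

/-- the step of the program that compares the threshold with `e`: the lowest digits come first -/
def stpZ (e : ℕ) (q : StT n) (x : VarT n L) (c : Bool) : StT n :=
  match x with
  | Sum.inl (Sum.inr (Sum.inr i)) => (q.1, if c = e.testBit i.val then q.2 else e.testBit i.val)
  | _ => q

theorem fold_Z (e : ℕ) (z : Fin (digs n L) → Bool) (m : ℕ) (hm : m ≤ digs n L) :
    (((List.finRange (digs n L)).take m).map (fun i => tz (n := n) (L := L) i)).foldl
      (fun q x => stpZ e q x (match x with
        | Sum.inl (Sum.inr (Sum.inr i)) => z i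
        | _ => false)) (((fun _ => 0), true) : StT n) =
    ((fun _ => 0), decide (binary (fun i : Fin m => z (Fin.castLE hm i)) ≤ e % 2 ^ m)) := by
  induction m with
  | zero => simp [binary]
  | succ m ih =>
    have hlt : m < (List.finRange (digs n L)).length := by
      rw [List.length_finRange]
      exact hm
    rw [List.take_add_one, List.getElem?_eq_getElem hlt, Option.toList_some, List.map_append,
      List.foldl_append, ih (Nat.le_of_succ_le hm)]
    simp only [List.map_cons, List.map_nil, List.foldl_cons, List.foldl_nil,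
      List.getElem_finRange, stpZ]
    have hb : binary (fun i : Fin (m + 1) => z (Fin.castLE hm i)) =
        binary (fun i : Fin m => z (Fin.castLE (Nat.le_of_succ_le hm) i)) +
          if z ⟨m, hm⟩ then 2 ^ m else 0 := by
      rw [binary, Fin.sum_univ_castSucc]
      rfl
    have h1 := binary_lt (fun i : Fin m => z (Fin.castLE (Nat.le_of_succ_le hm) i))
    have h2 : e % 2 ^ m < 2 ^ m := Nat.mod_lt _ (by positivity)
    rw [hb, mod_two_pow_succ']
    congr 1
    have hc : (Fin.cast (List.length_finRange (n := digs n L)) ⟨m, hlt⟩) =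
      (⟨m, hm⟩ : Fin (digs n L)) := rfl
    simp only [hc]
    cases hz : z ⟨m, hm⟩ <;> cases he : e.testBit m <;> simp <;> omega

/-- the program that accepts if the threshold is at most `e` -/
def progZ (e : ℕ) : Obl (VarT n L) (StT n) where
  order := (List.finRange (digs n L)).map (fun i => tz i)
  nodup := (List.nodup_finRange _).map (fun i i' h => by
    simp only [Sum.inl.injEq, Sum.inr.injEq] at h
    exact h)
  init := ((fun _ => 0), true)
  step := stpZ e
  acc := fun q => q.2

theorem progZ_out {e : ℕ} (he : e < 2 ^ digs n L) (v : VarT n L → Bool) :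
    (progZ e).out v = decide (binary (fun i => v (tz i)) ≤ e) := by
  have h := fold_Z (n := n) (L := L) e (fun i => v (tz i)) (digs n L) le_rfl
  rw [Nat.mod_eq_of_lt he] at h
  have h2 : (progZ e).out v = ((((List.finRange (digs n L)).take (digs n L)).map
      (fun i => tz (n := n) (L := L) i)).foldl
      (fun q x => stpZ e q x (match x with
        | Sum.inl (Sum.inr (Sum.inr i)) => v (tz i)
        | _ => false)) (((fun _ => 0), true) : StT n)).2 := by
    rw [List.take_of_length_le (List.length_finRange).le]
    unfold Obl.out progZ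
    simp only
    rw [List.foldl_map, List.foldl_map]
  rw [h2, h]
  rfl

theorem card_StT (n : ℕ) (hn : 16 ≤ n) : Fintype.card (StT n) ≤ 8 * n ^ 2 := by
  rw [Fintype.card_prod, Fintype.card_fun, Fintype.card_bool, ZMod.card, Fintype.card_fin]
  have h1 : 2 ^ Nat.log 2 n ≤ n := Nat.pow_log_le_self 2 (by omega)
  have h2 : (2 : ℕ) ^ codim n = 4 * (2 ^ Nat.log 2 n) ^ 2 := by
    unfold codim
    ring
  rw [h2]
  nlinarith [Nat.pow_le_pow_left h1 2]

lemma card_ge (Y θ : ℕ) : (univ.filter (fun e : Fin Y => θ ≤ e.val)).card = Y - θ := by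
  rw [← Finset.card_map Fin.valEmbedding, ← Nat.card_Ico]
  congr 1
  ext e
  simp only [mem_map, mem_filter, mem_univ, true_and, Fin.valEmbedding_apply, mem_Ico]
  constructor
  · rintro ⟨i, hi, rfl⟩
    exact ⟨hi, i.2⟩
  · rintro ⟨h1, h2⟩
    exact ⟨⟨e, h2⟩, h1, rfl⟩

/-- the programs -/
def progs (n L : ℕ) : Fin (subs n * L + subs n * L) → Obl (VarT n L) (StT n) :=
  Fin.addCases (fun q => prog (finProdFinEquiv.symm q).1 (finProdFinEquiv.symm q).2)
    (fun e => progZ e.val)

lemma card_progs (v : VarT n L → Bool) :
    (univ.filter (fun y : Fin (subs n * L + subs n * L) => (progs n L y).out v = true)).card =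
      (univ.filter (fun q : Fin (subs n) × Fin L =>
        inSub (fun i j => v (Sum.inl (Sum.inl (Sum.inl (q.1, i, j)))))
        (fun i => v (Sum.inl (Sum.inl (Sum.inr (q.1, i))))) (fun j => v (Sum.inr (q.2, j))) ≠
          v (Sum.inl (Sum.inr (Sum.inl ()))))).card +
      (subs n * L - binary (fun i => v (tz i))) := by
  rw [Finset.card_filter, Fin.sum_univ_add]
  congr 1
  · rw [Finset.card_filter, ← Equiv.sum_comp finProdFinEquiv]
    refine Finset.sum_congr rfl (fun q _ => ?_)
    rw [progs, Fin.addCases_left, Equiv.symm_apply_apply, prog_out]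
    simp only [decide_eq_true_iff]
  · rw [← card_ge, Finset.card_filter]
    refine Finset.sum_congr rfl (fun e _ => ?_)
    have he : e.val < 2 ^ digs n L := by
      refine e.2.trans ?_
      exact Nat.lt_pow_succ_log_self (by norm_num) _
    rw [progs, Fin.addCases_right, progZ_out he]
    simp only [decide_eq_true_iff]

/-- Counting is in the PP mode. -/
theorem ppT (n L : ℕ) (hn : 16 ≤ n) : ∃ (Q : Type) (_ : Fintype Q)
    (A : Fin (2 * (subs n * L)) → Obl (VarT n L) Q), Fintype.card Q ≤ 8 * n ^ 2 ∧
      ∀ v, cntF n L v = true ↔ PPMode A v := by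
  refine ⟨StT n, inferInstance, fun y => progs n L (Fin.cast (two_mul _) y), card_StT n hn, ?_⟩
  intro v
  have h1 : (univ.filter (fun y : Fin (2 * (subs n * L)) =>
      (progs n L (Fin.cast (two_mul _) y)).out v = true)).card =
      (univ.filter (fun y : Fin (subs n * L + subs n * L) => (progs n L y).out v = true)).card := by
    rw [Finset.card_filter, Finset.card_filter, ← Equiv.sum_comp (finCongr (two_mul _))]
    rfl
  have hle : (univ.filter (fun q : Fin (subs n) × Fin L =>
        inSub (fun i j => v (Sum.inl (Sum.inl (Sum.inl (q.1, i, j)))))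
        (fun i => v (Sum.inl (Sum.inl (Sum.inr (q.1, i))))) (fun j => v (Sum.inr (q.2, j))) ≠
          v (Sum.inl (Sum.inr (Sum.inl ()))))).card ≤ subs n * L := by
    refine (card_filter_le _ _).trans ?_
    rw [card_univ, Fintype.card_prod, Fintype.card_fin, Fintype.card_fin]
  rw [PPMode, h1, card_progs, cntF, decide_eq_true_iff]
  have e : binary (fun i => v (Sum.inl (Sum.inr (Sum.inr i)))) = binary (fun i => v (tz i)) := rfl
  rw [e]
  generalize binary (fun i => v (tz i)) = θ
  revert hle
  generalize subs n * L = Y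
  intro hle
  omega

end Pool.Agent.Lib_helper26.AC.PT
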