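import Pool.Agent.Lib_helper20.LG.Cls

/-!
Asymmetric classes. The segments are split in a small group `F` and all the others. `A x` are
coordinates outside `Q` tested only in `F`, `B x` the coordinates in `Q` not tested in `F`.
-/

namespace Pool.Agent.Lib_helper26.AC

open Finset Pool.Agent.Lib_helper20.SRO Pool.Agent.Lib_helper20.LG

variable {n r : ℕ}

/-- the coordinates tested in the segments of `F` -/
def tst (w : Fin r → List (Fin n × Bool)) (F : Finset (Fin r)) : Finset (Fin n) :=
  F.biUnion (fun j => vars (w j))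

lemma mem_tst {w : Fin r → List (Fin n × Bool)} {F : Finset (Fin r)} {i : Fin n} :
    i ∈ tst w F ↔ ∃ j ∈ F, i ∈ vars (w j) := by simp [tst]

/-- the coordinates outside `Q` not tested outside `F` -/
def free (w : Fin r → List (Fin n × Bool)) (F : Finset (Fin r)) (Q : Finset (Fin n)) :
    Finset (Fin n) := (univ \ Q) \ tst w Fᶜ

/-- a part of them -/
def pA (tr : Finset (Fin n) → Finset (Fin n)) (w : Fin r → List (Fin n × Bool))
    (F : Finset (Fin r)) (Q : Finset (Fin n)) : Finset (Fin n) := tr (free w F Q)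

/-- the coordinates in `Q` not tested in `F` -/
def pB (w : Fin r → List (Fin n × Bool)) (F : Finset (Fin r)) (Q : Finset (Fin n)) :
    Finset (Fin n) := Q \ tst w F

/-- The data: accepted inputs with walks between fixed nodes, cut in `r` segments. -/
structure Dat (P : Finset (Fin n → Bool)) (w : (Fin n → Bool) → Fin r → List (Fin n × Bool))
    (S : Fin r → Set (List (Fin n × Bool))) : Prop where
  ag : ∀ x ∈ P, ∀ j, Agrees x (w x j)
  mem : ∀ x ∈ P, ∀ j, w x j ∈ S j

/-- what is known outside `A` -/
def keyA (tr : Finset (Fin n) → Finset (Fin n)) (w : (Fin n → Bool) → Fin r → List (Fin n × Bool))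
    (F : Finset (Fin r)) (Q : Finset (Fin n)) (x : Fin n → Bool) :
    Finset (Fin n) × Finset (Fin n) × (Fin n → Bool) :=
  (pA tr (w x) F Q, pB (w x) F Q, fun i => if i ∈ pA tr (w x) F Q then false else x i)

/-- what is known outside `B` -/
def keyB (tr : Finset (Fin n) → Finset (Fin n)) (w : (Fin n → Bool) → Fin r → List (Fin n × Bool))
    (F : Finset (Fin r)) (Q : Finset (Fin n)) (x : Fin n → Bool) :
    Finset (Fin n) × Finset (Fin n) × (Fin n → Bool) :=
  (pA tr (w x) F Q, pB (w x) F Q, fun i => if i ∈ pB (w x) F Q then false else x i)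

/-- the class of `x` for a key -/
def cl {K : Type} [DecidableEq K] (P : Finset (Fin n → Bool)) (κ : (Fin n → Bool) → K)
    (x : Fin n → Bool) : Finset (Fin n → Bool) := P.filter (fun y => κ y = κ x)

section

variable {P : Finset (Fin n → Bool)} {w : (Fin n → Bool) → Fin r → List (Fin n × Bool)}
  {S : Fin r → Set (List (Fin n × Bool))} {F : Finset (Fin r)} {Q : Finset (Fin n)}
  {tr : Finset (Fin n) → Finset (Fin n)}

lemma keyA_off {x y : Fin n → Bool} (h : keyA tr w F Q y = keyA tr w F Q x) {i : Fin n}
    (hi : i ∉ pA tr (w x) F Q) : y i = x i := by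
  have h1 := congrArg Prod.fst h
  have h2 := congrFun (congrArg (fun t => t.2.2) h) i
  simp only [keyA] at h1 h2
  rw [h1] at h2
  simpa [hi] using h2

lemma keyB_off {x y : Fin n → Bool} (h : keyB tr w F Q y = keyB tr w F Q x) {i : Fin n}
    (hi : i ∉ pB (w x) F Q) : y i = x i := by
  have h1 := congrArg (fun t => t.2.1) h
  have h2 := congrFun (congrArg (fun t => t.2.2) h) i
  simp only [keyB] at h1 h2
  rw [h1] at h2
  simpa [hi] using h2

lemma pB_sub (v : Fin r → List (Fin n × Bool)) : pB v F Q ⊆ Q := sdiff_subset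

lemma pA_free (htr : ∀ s, tr s ⊆ s) {v : Fin r → List (Fin n × Bool)} {i : Fin n}
    (hi : i ∈ pA tr v F Q) : i ∉ Q ∧ ∀ j, j ∉ F → i ∉ vars (v j) := by
  have h1 := htr _ hi
  rw [free, mem_sdiff, mem_sdiff] at h1
  refine ⟨h1.1.2, fun j hj hij => h1.2 (mem_tst.2 ⟨j, by simpa using hj, hij⟩)⟩

lemma pB_free {v : Fin r → List (Fin n × Bool)} {i : Fin n}
    (hi : i ∈ pB v F Q) : i ∈ Q ∧ ∀ j ∈ F, i ∉ vars (v j) := by
  rw [pB, mem_sdiff] at hi
  exact ⟨hi.1, fun j hj hij => hi.2 (mem_tst.2 ⟨j, hj, hij⟩)⟩

/-- The hybrid of two members of the two classes is accepted. -/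
lemma hybrid (htr : ∀ s, tr s ⊆ s) (hD : Dat P w S) {f : (Fin n → Bool) → Bool}
    (hsound : ∀ z, (∀ j, ∃ l ∈ S j, Agrees z l) → f z = true)
    {x y y' : Fin n → Bool} (hy : y ∈ P) (hy' : y' ∈ P)
    (h : keyA tr w F Q y = keyA tr w F Q x) (h' : keyB tr w F Q y' = keyB tr w F Q x) :
    f (fun i => if i ∈ pA tr (w x) F Q then y i else y' i) = true := by
  apply hsound
  intro j
  by_cases h1 : j ∈ F
  · refine ⟨w y j, hD.mem y hy j, agrees_congr (hD.ag y hy j) (fun i hi => ?_)⟩
    by_cases hA : i ∈ pA tr (w x) F Q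
    · simp only [hA, if_true]
    · simp only [hA, if_false]
      rw [keyA_off h hA]
      apply keyB_off h'
      intro hB
      have h2 : pB (w y) F Q = pB (w x) F Q := congrArg (fun t => t.2.1) h
      rw [← h2] at hB
      exact (pB_free hB).2 j h1 hi
  · refine ⟨w y' j, hD.mem y' hy' j, agrees_congr (hD.ag y' hy' j) (fun i hi => ?_)⟩
    have hA : i ∉ pA tr (w x) F Q := by
      intro hA
      have h2 : pA tr (w y') F Q = pA tr (w x) F Q := congrArg Prod.fst h'
      rw [← h2] at hA
      exact (pA_free htr hA).2 j h1 hi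
    simp only [hA, if_false]

/-- One of the two classes is small. -/
lemma cl_small (htr : ∀ s, tr s ⊆ s) (hD : Dat P w S)
    {f : (Fin n → Bool) → Bool} (hsound : ∀ z, (∀ j, ∃ l ∈ S j, Agrees z l) → f z = true)
    {m : ℕ} (hf : RectFree f m) (x : Fin n → Bool) :
    (cl P (keyA tr w F Q) x).card < m ∨ (cl P (keyB tr w F Q) x).card < m := by
  by_contra hcon
  rw [not_or, not_lt, not_lt] at hcon
  obtain ⟨hc1, hc2⟩ := hcon
  set A := pA tr (w x) F Q with hA
  have hmem : ∀ {κ : (Fin n → Bool) → Finset (Fin n) × Finset (Fin n) × (Fin n → Bool)}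
      {y : Fin n → Bool}, y ∈ cl P κ x → y ∈ P ∧ κ y = κ x := by
    intro κ y hy
    rw [cl, mem_filter] at hy
    exact hy
  have i1 : ((cl P (keyA tr w F Q) x).image (fun y i => if i ∈ A then y i else false)).card =
      (cl P (keyA tr w F Q) x).card := by
    apply Finset.card_image_of_injOn
    intro y1 h1 y2 h2 he
    obtain ⟨h1P, h1k⟩ := hmem (mem_coe.1 h1)
    obtain ⟨h2P, h2k⟩ := hmem (mem_coe.1 h2)
    funext i
    by_cases hi : i ∈ A
    · have := congrFun he i
      simpa [hi] using this
    · rw [keyA_off h1k hi, keyA_off h2k hi]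
  have i2 : ((cl P (keyB tr w F Q) x).image (fun y i => if i ∈ A then false else y i)).card =
      (cl P (keyB tr w F Q) x).card := by
    apply Finset.card_image_of_injOn
    intro y1 h1 y2 h2 he
    obtain ⟨h1P, h1k⟩ := hmem (mem_coe.1 h1)
    obtain ⟨h2P, h2k⟩ := hmem (mem_coe.1 h2)
    funext i
    by_cases hi : i ∈ A
    · have hB : i ∉ pB (w x) F Q := fun hB => (pA_free htr hi).1 (pB_sub _ hB)
      rw [keyB_off h1k hB, keyB_off h2k hB]
    · have := congrFun he i
      simpa [hi] using this
  obtain ⟨a, ha, a', ha', hfa⟩ := hf A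
    ((cl P (keyA tr w F Q) x).image (fun y i => if i ∈ A then y i else false))
    ((cl P (keyB tr w F Q) x).image (fun y i => if i ∈ A then false else y i)) (by
      intro a ha i hi
      obtain ⟨y, _, rfl⟩ := Finset.mem_image.1 ha
      simp [hi]) (by
      intro a ha i hi
      obtain ⟨y, _, rfl⟩ := Finset.mem_image.1 ha
      simp [hi]) (by rw [i1]; exact hc1) (by rw [i2]; exact hc2)
  obtain ⟨y, hy, rfl⟩ := Finset.mem_image.1 ha
  obtain ⟨y', hy', rfl⟩ := Finset.mem_image.1 ha'
  obtain ⟨hyP, hyk⟩ := hmem hy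
  obtain ⟨hyP', hyk'⟩ := hmem hy'
  have h1 := hybrid htr hD hsound hyP hyP' hyk hyk'
  rw [← hA] at h1
  have h2 : (fun i => if i ∈ A then (fun i => if i ∈ A then y i else false) i
      else (fun i => if i ∈ A then false else y' i) i) = fun i => if i ∈ A then y i else y' i := by
    funext i
    by_cases hi : i ∈ A
    · simp [hi]
    · simp [hi]
  rw [h2, h1] at hfa
  exact Bool.true_eq_false_eq_False hfa

/-- Counting inputs with small classes, in general. -/
lemma card_small {K : Type} [DecidableEq K] {κ : (Fin n → Bool) → K}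
    {D : (Fin n → Bool) → Finset (Fin n)} {m u c : ℕ} (hu : ∀ x ∈ P, u ≤ (D x).card)
    (hc : ∀ z : Fin n → Bool, ∃ T : Finset K, T.card ≤ c ∧
      ∀ x ∈ P, (∀ i, i ∉ D x → z i = x i) → κ x ∈ T) :
    (P.filter (fun x => (cl P κ x).card < m)).card * 2 ^ u ≤ m * (2 ^ n * c) := by
  classical
  set Q' := P.filter (fun x => (cl P κ x).card < m) with hQ
  set K' := Q'.image κ with hK
  have hQP : ∀ x ∈ Q', x ∈ P := fun x hx => (mem_filter.1 hx).1
  have h1 : Q'.card ≤ m * K'.card := by
    apply Finset.card_le_mul_card_image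
    intro k hk
    obtain ⟨x, hx, rfl⟩ := mem_image.1 hk
    have h2 := (mem_filter.1 hx).2
    refine le_trans (Finset.card_le_card ?_) h2.le
    intro y hy
    rw [mem_filter] at hy
    rw [cl, mem_filter]
    exact ⟨hQP y hy.1, hy.2⟩
  have h2 : K'.card * 2 ^ u ≤ (univ : Finset (Fin n → Bool)).card * c := by
    apply Finset.card_mul_le_card_mul (fun (k : K) (z : Fin n → Bool) => ∃ x ∈ Q', κ x = k ∧
        ∀ i, i ∉ D x → z i = x i)
    · intro k hk
      obtain ⟨x, hx, rfl⟩ := mem_image.1 hk
      calc 2 ^ u ≤ 2 ^ (D x).card := Nat.pow_le_pow_right (by norm_num) (hu x (hQP x hx))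
        _ = (univ.filter (fun z : Fin n → Bool => ∀ i, i ∉ D x → z i = x i)).card :=
            (card_cube _ x).symm
        _ ≤ _ := by
            apply Finset.card_le_card
            intro z hz
            rw [mem_filter] at hz
            rw [Finset.mem_bipartiteAbove]
            exact ⟨mem_univ _, x, hx, rfl, hz.2⟩
    · intro z _
      obtain ⟨T, hT, hT2⟩ := hc z
      refine le_trans (Finset.card_le_card ?_) hT
      intro k hk
      rw [Finset.mem_bipartiteBelow] at hk
      obtain ⟨_, x, hx, rfl, hz⟩ := hk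
      exact hT2 x (hQP x hx) hz
  calc Q'.card * 2 ^ u ≤ m * K'.card * 2 ^ u := Nat.mul_le_mul_right _ h1
    _ = m * (K'.card * 2 ^ u) := by ring
    _ ≤ m * ((univ : Finset (Fin n → Bool)).card * c) := Nat.mul_le_mul_left _ h2
    _ = m * (2 ^ n * c) := by
        rw [card_univ, Fintype.card_fun, Fintype.card_bool, Fintype.card_fin]

open Classical in
/-- the possible sets of tested coordinates in the segments of `G` -/
noncomputable def pat (S : Fin r → Set (List (Fin n × Bool))) (G : Finset (Fin r))
    (z : Fin n → Bool) : Finset (Fin r → Finset (Fin n)) :=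
  Fintype.piFinset (fun j => if j ∈ G then
    (Set.toFinite {V : Finset (Fin n) | ∃ l ∈ S j, Agrees z l ∧ vars l = V}).toFinset else {∅})

lemma card_pat {G : Finset (Fin r)} {z : Fin n → Bool} {a : ℕ} (ha : 1 ≤ a)
    (hamb : ∀ (z : Fin n → Bool) (j : Fin r),
      {V | ∃ l ∈ S j, Agrees z l ∧ vars l = V}.encard ≤ a) : (pat S G z).card ≤ a ^ r := by
  classical
  rw [pat, Fintype.card_piFinset]
  calc _ ≤ ∏ _j : Fin r, a := by
        apply Finset.prod_le_prod'
        intro j _
        by_cases hj : j ∈ G
        · rw [if_pos hj]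
          have := hamb z j
          rw [(Set.toFinite _).encard_eq_coe_toFinset_card] at this
          exact_mod_cast this
        · rw [if_neg hj, card_singleton]
          exact ha
    _ = a ^ r := by simp

/-- the tested sets, in `G` only -/
def act (v : Fin r → List (Fin n × Bool)) (G : Finset (Fin r)) : Fin r → Finset (Fin n) :=
  fun j => if j ∈ G then vars (v j) else ∅

lemma act_mem (hD : Dat P w S) {G : Finset (Fin r)} {x z : Fin n → Bool} (hx : x ∈ P)
    (hz : ∀ j ∈ G, ∀ i ∈ vars (w x j), z i = x i) : act (w x) G ∈ pat S G z := by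
  classical
  rw [pat, Fintype.mem_piFinset]
  intro j
  by_cases hj : j ∈ G
  · rw [if_pos hj, Set.Finite.mem_toFinset, Set.mem_ofPred_eq, act, if_pos hj]
    exact ⟨w x j, hD.mem x hx j, agrees_congr (hD.ag x hx j) (hz j hj), rfl⟩
  · rw [if_neg hj, act, if_neg hj, mem_singleton]

lemma tst_act (v : Fin r → List (Fin n × Bool)) (G : Finset (Fin r)) :
    tst v G = univ.biUnion (act v G) := by
  ext i
  rw [mem_tst, mem_biUnion]
  constructor
  · rintro ⟨j, hj, h⟩
    exact ⟨j, mem_univ _, by rw [act, if_pos hj]; exact h⟩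
  · rintro ⟨j, _, h⟩
    by_cases hj : j ∈ G
    · rw [act, if_pos hj] at h
      exact ⟨j, hj, h⟩
    · rw [act, if_neg hj] at h
      simp at h

/-- The size of `P`. -/
theorem card_P (htr : ∀ s, tr s ⊆ s) (hD : Dat P w S)
    {f : (Fin n → Bool) → Bool} (hsound : ∀ z, (∀ j, ∃ l ∈ S j, Agrees z l) → f z = true)
    {a m α t : ℕ} (hf : RectFree f m) (ha : 1 ≤ a)
    (hamb : ∀ (z : Fin n → Bool) (j : Fin r),
      {V | ∃ l ∈ S j, Agrees z l ∧ vars l = V}.encard ≤ a)
    (hα : ∀ x ∈ P, (pA tr (w x) F Q).card = α)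
    (ht : ∀ x ∈ P, (Q ∩ tst (w x) F).card ≤ t) :
    ∃ P1 P2 : ℕ, P.card ≤ P1 + P2 ∧
      P1 * 2 ^ α ≤ m * (2 ^ n * (a ^ r * (Q.powerset.filter (fun s => s.card ≤ t)).card)) ∧
      P2 * 2 ^ (Q.card - t) ≤ m * (2 ^ n * (a ^ r * n.choose α)) := by
  classical
  refine ⟨(P.filter (fun x => (cl P (keyA tr w F Q) x).card < m)).card,
    (P.filter (fun x => (cl P (keyB tr w F Q) x).card < m)).card, ?_, ?_, ?_⟩
  · refine le_trans (Finset.card_le_card ?_) (Finset.card_union_le _ _)
    intro x hx
    rw [mem_union, mem_filter, mem_filter]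
    rcases cl_small (F := F) (Q := Q) htr hD hsound hf x with h | h
    · exact Or.inl ⟨hx, h⟩
    · exact Or.inr ⟨hx, h⟩
  · apply card_small (D := fun x => pA tr (w x) F Q)
    · intro x hx
      exact (hα x hx).ge
    · intro z
      refine ⟨(pat S Fᶜ z ×ˢ (Q.powerset.filter (fun s => s.card ≤ t))).image
        (fun p => (tr ((univ \ Q) \ univ.biUnion p.1), Q \ p.2,
          fun i => if i ∈ tr ((univ \ Q) \ univ.biUnion p.1) then false else z i)), ?_, ?_⟩
      · refine Finset.card_image_le.trans ?_
        rw [card_product]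
        exact Nat.mul_le_mul_right _ (card_pat ha hamb)
      · intro x hx hz
        rw [mem_image]
        refine ⟨(act (w x) Fᶜ, Q ∩ tst (w x) F), ?_, ?_⟩
        · rw [mem_product, mem_filter, mem_powerset]
          refine ⟨act_mem hD hx ?_, inter_subset_left, ht x hx⟩
          intro j hj i hi
          apply hz
          intro hA
          exact (pA_free htr hA).2 j (by simpa using hj) hi
        · have h1 : tr ((univ \ Q) \ univ.biUnion (act (w x) Fᶜ)) = pA tr (w x) F Q := by
            rw [← tst_act]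
            rfl
          simp only [keyA]
          rw [h1]
          refine Prod.ext rfl (Prod.ext ?_ ?_)
          · show Q \ (Q ∩ tst (w x) F) = pB (w x) F Q
            rw [pB, sdiff_inter_self_left]
          · funext i
            show (if i ∈ pA tr (w x) F Q then false else z i) = _
            by_cases hi : i ∈ pA tr (w x) F Q
            · simp [hi]
            · simp [hi, hz i hi]
  · apply card_small (D := fun x => pB (w x) F Q)
    · intro x hx
      have h1 := ht x hx
      have h2 : (pB (w x) F Q).card + (Q ∩ tst (w x) F).card = Q.card := by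
        rw [pB, Finset.card_sdiff_add_card_inter]
      show Q.card - t ≤ (pB (w x) F Q).card
      omega
    · intro z
      refine ⟨(pat S F z ×ˢ (univ : Finset (Fin n)).powersetCard α).image
        (fun p => (p.2, Q \ univ.biUnion p.1,
          fun i => if i ∈ Q \ univ.biUnion p.1 then false else z i)), ?_, ?_⟩
      · refine Finset.card_image_le.trans ?_
        rw [card_product, card_powersetCard, card_univ, Fintype.card_fin]
        exact Nat.mul_le_mul_right _ (card_pat ha hamb)
      · intro x hx hz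
        rw [mem_image]
        refine ⟨(act (w x) F, pA tr (w x) F Q), ?_, ?_⟩
        · rw [mem_product, mem_powersetCard]
          refine ⟨act_mem hD hx ?_, subset_univ _, hα x hx⟩
          intro j hj i hi
          apply hz
          intro hB
          exact (pB_free hB).2 j hj hi
        · have h1 : Q \ univ.biUnion (act (w x) F) = pB (w x) F Q := by
            rw [← tst_act]
            rfl
          simp only [keyB]
          rw [h1]
          refine Prod.ext rfl (Prod.ext rfl ?_)
          funext i
          show (if i ∈ pB (w x) F Q then false else z i) = _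
          by_cases hi : i ∈ pB (w x) F Q
          · simp [hi]
          · simp [hi, hz i hi]

end

end Pool.Agent.Lib_helper26.AC
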