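import Pool.Agent.Lib_helper26.AC.Block
import Pool.Agent.Lib_helper26.AC.PPT

/-!
The lower bound for counting and its complement.
-/

namespace Pool.Agent.Lib_helper26.AC

open Finset Pool.Agent.Lib_helper20.SRO Pool.Agent.Lib_helper20.LG

lemma subsT_pos {n : ℕ} (hn : 16 ≤ n) : 0 < subs n := by
  unfold subs
  positivity

/-- The lower bound for `cntF` and its complement. -/
theorem cntF_lower {n L k : ℕ} (h16 : 16 ≤ n) (hL : 1 ≤ L) (hk : 1 ≤ k)
    (hn : (k + 1) ^ (260 * k) ≤ n) (N : Type) [Fintype N] (G : NBP (VarT n L) N) (a : ℕ)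
    (hacc : G.AccessPatterns a) (hfew : G.FewTests (k * (n * L)))
    (hcomp : G.Computes (cntF n L) ∨ G.Computes (fun v => !cntF n L v)) :
    (2 : ℝ) ^ ((n : ℝ) / (k + 1) ^ (260 * k)) ≤ L * a * Fintype.card N := by
  obtain ⟨M, s, hrect, hdense⟩ := exists_off n h16
  have hB : 0 < bnd k := Nat.pow_pos (Nat.succ_pos k)
  have h1 : (2 : ℝ) ^ ((n : ℝ) / (k + 1) ^ (260 * k)) ≤ 2 ^ ((n : ℝ) / bnd k) := by
    apply Real.rpow_le_rpow_of_exponent_le one_le_two
    apply div_le_div_of_nonneg_left (Nat.cast_nonneg _) (by exact_mod_cast hB)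
    have h3 : (bnd k : ℝ) ≤ ((k + 1) ^ (260 * k) : ℕ) := by
      rw [← bnd_sq]
      exact_mod_cast Nat.le_mul_of_pos_left _ hB
    refine h3.trans (le_of_eq ?_)
    push_cast
    rfl
  have hm : 2 ^ (Nat.log 2 n + 1) ≤ 2 * n := by
    rw [pow_succ, mul_comm]
    exact Nat.mul_le_mul_left _ (Nat.pow_log_le_self 2 (by omega))
  have hpos : 0 < subs n * L := Nat.mul_pos (subsT_pos h16) hL
  have hlt : subs n * L - 1 < 2 ^ digs n L :=
    lt_of_le_of_lt (Nat.sub_le _ _) (Nat.lt_pow_succ_log_self (by norm_num) _)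
  -- the value at the special coefficients
  let α : Bool → Coef n ⊕ (Unit ⊕ Fin (digs n L)) → Bool := fun p =>
    Sum.elim (Sum.elim (fun q => M q.1 q.2.1 q.2.2) (fun q => s q.1 q.2))
      (Sum.elim (fun _ => p) (fun i => p && (subs n * L - 1).testBit i.val))
  have hval : ∀ (p : Bool) (b : Fin L × Fin n → Bool), cntF n L (Sum.elim (α p) b) =
      decide ((if p then subs n * L - 1 else 0) <
        (univ.filter (fun q : Fin (subs n) × Fin L =>
          inSub (M q.1) (s q.1) (fun j => b (q.2, j)) ≠ p)).card) := by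
    intro p b
    have e : binary (fun i : Fin (digs n L) => (p && (subs n * L - 1).testBit i.val)) =
        if p then subs n * L - 1 else 0 := by
      cases p
      · simp [binary]
      · simp only [Bool.true_and, if_true]
        rw [PT.binary_testBit, Nat.mod_eq_of_lt hlt]
    rw [← e]
    rfl
  have key1 : ∀ b : Fin L × Fin n → Bool, cntF n L (Sum.elim (α true) b) = true ↔
      ∀ l, off M s (fun j => b (l, j)) = true := by
    intro b
    rw [hval, decide_eq_true_iff, if_pos rfl]
    have h2 := Finset.card_filter_add_card_filter_not (s := (univ : Finset (Fin (subs n) × Fin L)))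
      (fun q => inSub (M q.1) (s q.1) (fun j => b (q.2, j)) ≠ true)
    rw [card_univ, Fintype.card_prod, Fintype.card_fin, Fintype.card_fin] at h2
    have h3 : (subs n * L - 1 < (univ.filter (fun q : Fin (subs n) × Fin L =>
        inSub (M q.1) (s q.1) (fun j => b (q.2, j)) ≠ true)).card) ↔
        (univ.filter (fun q : Fin (subs n) × Fin L =>
          ¬ (inSub (M q.1) (s q.1) (fun j => b (q.2, j)) ≠ true))).card = 0 := by
      revert h2 hpos
      generalize subs n * L = Y
      intro hpos h2
      omega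
    rw [h3, Finset.card_eq_zero, Finset.filter_eq_empty_iff]
    simp only [off, decide_eq_true_iff, mem_univ, true_implies, not_not, Prod.forall]
    constructor
    · intro h l t
      have := h t l
      simpa using this
    · intro h t l
      have := h l t
      simpa using this
  have key2 : ∀ b : Fin L × Fin n → Bool, (!cntF n L (Sum.elim (α false) b)) = true ↔
      ∀ l, off M s (fun j => b (l, j)) = true := by
    intro b
    rw [Bool.not_eq_true', hval, decide_eq_false_iff_not, if_neg Bool.false_ne_true, not_lt,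
      Nat.le_zero, Finset.card_eq_zero, Finset.filter_eq_empty_iff]
    simp only [off, decide_eq_true_iff, mem_univ, true_implies, not_not, Prod.forall]
    exact ⟨fun h l t => h t l, fun h t l => h l t⟩
  have hacc' : ∀ p, AccessPatternsAt G (α p) a := fun p b u v => hacc (Sum.elim (α p) b) u v
  have hfew' : ∀ p, FewTestsAt G (α p) (k * (n * L)) := fun p b hb => hfew _ hb
  refine h1.trans ?_
  rcases hcomp with hcomp | hcomp
  · exact block_lower hk (by rw [bnd_sq]; exact hn) hL hm hrect hdense (hacc' true) (hfew' true)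
      (fun b => (hcomp _).trans (key1 b))
  · exact block_lower hk (by rw [bnd_sq]; exact hn) hL hm hrect hdense (hacc' false) (hfew' false)
      (fun b => (hcomp _).trans (key2 b))

/-- If there are many points, then most variables are bits of points. -/
theorem card_varT {n L : ℕ} (hn : 16 ≤ n) (hL : 5 * n ^ 3 ≤ L) :
    Fintype.card (VarT n L) ≤ 2 * (n * L) := by
  have hV : Fintype.card (VarT n L) = subs n * (codim n * n) + subs n * codim n +
      (1 + digs n L) + L * n := by
    rw [Fintype.card_sum, Fintype.card_sum, Fintype.card_sum, Fintype.card_sum, Fintype.card_prod,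
      Fintype.card_prod, Fintype.card_prod, Fintype.card_prod, Fintype.card_fin, Fintype.card_fin,
      Fintype.card_fin, Fintype.card_fin, Fintype.card_fin, Fintype.card_unit]
  have hlog : 4 * (Nat.log 2 n + 1) ≤ n + 4 := by
    have h1 : 2 ^ Nat.log 2 n ≤ n := Nat.pow_log_le_self 2 (by omega)
    have h2 : ∀ p : ℕ, 4 ≤ p → 4 * p ≤ 2 ^ p := by
      intro p hp
      induction p, hp using Nat.le_induction with
      | base => norm_num
      | succ p hp ih =>
        rw [pow_succ]
        omega
    have h3 : 4 ≤ Nat.log 2 n := Nat.le_log_of_pow_le (by norm_num) hn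
    have := h2 _ h3
    omega
  have h1 : subs n * (codim n * n) + subs n * codim n ≤ 4 * n ^ 4 := by
    have e1 : subs n * (codim n * n) + subs n * codim n =
        5 * n ^ 2 * (2 * (Nat.log 2 n + 1)) * (n + 1) := by
      unfold subs codim
      ring
    have e2 : 10 * (Nat.log 2 n + 1) * (n + 1) ≤ 4 * n ^ 2 := by
      nlinarith
    calc _ = n ^ 2 * (10 * (Nat.log 2 n + 1) * (n + 1)) := by
          rw [e1]
          ring
      _ ≤ n ^ 2 * (4 * n ^ 2) := Nat.mul_le_mul_left _ e2
      _ = 4 * n ^ 4 := by ring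
  have h2 : 5 * n ^ 4 ≤ L * n := by
    calc 5 * n ^ 4 = 5 * n ^ 3 * n := by ring
      _ ≤ L * n := Nat.mul_le_mul_right _ hL
  -- the digits
  have h3 : 1 + digs n L ≤ L := by
    have hn3 : 16 ^ 3 ≤ n ^ 3 := Nat.pow_le_pow_left hn 3
    have hL1 : 5 * 16 ^ 3 ≤ L := by omega
    have e1 : subs n * L ≤ L * L := by
      refine Nat.mul_le_mul_right _ ?_
      unfold subs
      refine le_trans ?_ hL
      exact Nat.mul_le_mul_left _ (Nat.pow_le_pow_right (by omega) (by norm_num))
    have h4 : ∀ p : ℕ, 5 ≤ p → 2 * (p + 1) + 2 ≤ 2 ^ p := by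
      intro p hp
      induction p, hp using Nat.le_induction with
      | base => norm_num
      | succ p hp ih =>
        rw [pow_succ]
        omega
    set q := Nat.log 2 L with hq
    have h5 : L < 2 ^ (q + 1) := Nat.lt_pow_succ_log_self (by norm_num) L
    have h6 : 2 ^ q ≤ L := Nat.pow_log_le_self 2 (by omega)
    have h7 : 5 ≤ q := Nat.le_log_of_pow_le (by norm_num) (by omega)
    have h8 : Nat.log 2 (subs n * L) < 2 * (q + 1) := by
      apply Nat.log_lt_of_lt_pow
      · have : 0 < subs n * L := Nat.mul_pos (subsT_pos hn) (by omega)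
        omega
      · calc subs n * L ≤ L * L := e1
          _ < 2 ^ (q + 1) * 2 ^ (q + 1) := Nat.mul_lt_mul'' h5 h5
          _ = 2 ^ (2 * (q + 1)) := by rw [← pow_add]; congr 1; ring
    have := h4 q h7
    unfold digs
    omega
  -- the end
  have h4 : 5 * (4 * n ^ 4) ≤ 4 * (L * n) := by omega
  have h5 : 5 * (1 + digs n L) ≤ L * n := by
    calc 5 * (1 + digs n L) ≤ 5 * L := Nat.mul_le_mul_left _ h3
      _ ≤ n * L := Nat.mul_le_mul_right _ (by omega)
      _ = L * n := Nat.mul_comm _ _
  have h7 : n * L = L * n := Nat.mul_comm _ _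
  rw [hV, h7]
  omega

end Pool.Agent.Lib_helper26.AC
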