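import Pool.Agent.Lib_helper20.LG.Avoid
import Pool.Agent.Lib_helper26.AC.Model

/-!
Random affine subspaces (after the module Avoid of helper1, without the parity).
-/

namespace Pool.Agent.Lib_helper26.AC

open Finset Pool.Agent.Lib_helper20.SRO Pool.Agent.Lib_helper20.LG Pool.Agent.Lib_helper20.LG.Av

lemma rect' {n m d T : ℕ} (hm : m * m = 2 ^ d) (P : Fin T → Fin d → Q n)
    (hP : ¬ RectFree (off (fun t i => (P t i).1) (fun t i => (P t i).2)) m) :
    ∃ i : Finset (Fin n) × (Fin m → Fin n → Bool) × (Fin m → Fin n → Bool),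
      (Zof i).card = 2 ^ d ∧ ∀ t, ∀ z ∈ Zof i, hit z (P t) = false := by
  unfold RectFree at hP
  push Not at hP
  obtain ⟨U, X, Y, hX, hY, hmX, hmY, h⟩ := hP
  obtain ⟨X', hX', hX'c⟩ := Finset.exists_subset_card_eq hmX
  obtain ⟨Y', hY', hY'c⟩ := Finset.exists_subset_card_eq hmY
  set x : Fin m → Fin n → Bool := fun i => ((X'.equivFinOfCardEq hX'c).symm i : Fin n → Bool)
    with hx
  set y : Fin m → Fin n → Bool := fun i => ((Y'.equivFinOfCardEq hY'c).symm i : Fin n → Bool)
    with hy
  have hxi : Function.Injective x := by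
    intro i j hij
    exact (X'.equivFinOfCardEq hX'c).symm.injective (Subtype.ext hij)
  have hyi : Function.Injective y := by
    intro i j hij
    exact (Y'.equivFinOfCardEq hY'c).symm.injective (Subtype.ext hij)
  have hxX : ∀ i, x i ∈ X := fun i => hX' ((X'.equivFinOfCardEq hX'c).symm i).2
  have hyY : ∀ i, y i ∈ Y := fun i => hY' ((Y'.equivFinOfCardEq hY'c).symm i).2
  refine ⟨(U, x, y), ?_, ?_⟩
  · rw [Zof, card_image_of_injective]
    · rw [card_univ, Fintype.card_prod, Fintype.card_fin, hm]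
    · rintro ⟨i, j⟩ ⟨i', j'⟩ hij
      simp only at hij
      have e1 : x i = x i' := by
        funext c
        by_cases hc : c ∈ U
        · have := congrFun hij c
          simpa [mix, hc] using this
        · rw [hX _ (hxX i) c hc, hX _ (hxX i') c hc]
      have e2 : y j = y j' := by
        funext c
        by_cases hc : c ∈ U
        · rw [hY _ (hyY j) c hc, hY _ (hyY j') c hc]
        · have := congrFun hij c
          simpa [mix, hc] using this
      rw [hxi e1, hyi e2]
  · intro t z hz
    rw [Zof, mem_image] at hz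
    obtain ⟨j, -, rfl⟩ := hz
    have h1 := h (x j.1) (hxX _) (y j.2) (hyY _)
    have h2 : off (fun t i => (P t i).1) (fun t i => (P t i).2) (mix U (x j.1) (y j.2)) = true :=
      Bool.eq_true_of_not_eq_false h1
    rw [off, decide_eq_true_eq] at h2
    exact h2 t


/-- Random subspaces. -/
theorem exists_off (n : ℕ) (hn : 16 ≤ n) : ∃ (M : Fin (subs n) → Fin (codim n) → Fin n → Bool)
    (s : Fin (subs n) → Fin (codim n) → Bool), RectFree (off M s) (2 ^ (Nat.log 2 n + 1)) ∧
      2 ^ n ≤ 2 ^ 12 * (univ.filter (fun b => off M s b = true)).card := by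
  classical
  set L := Nat.log 2 n + 1 with hL
  set m := 2 ^ L with hm
  have hm1 : n < m := Nat.lt_pow_succ_log_self (by norm_num) n
  have hm2 : m ≤ 2 * n := by
    rw [hm, hL, pow_succ]
    have := Nat.pow_log_le_self 2 (show n ≠ 0 by omega)
    omega
  have hd : codim n = 2 * L := rfl
  have hmm : m * m = 2 ^ codim n := by
    rw [hd, hm, ← pow_add, two_mul]
  have hn2 : n ^ 2 ≤ 2 ^ codim n := by
    rw [← hmm, sq]
    exact Nat.mul_le_mul hm1.le hm1.le
  set d := codim n with hdd
  set T := subs n with hT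
  have hTn : T = 5 * n ^ 2 := rfl
  by_contra hcon
  push Not at hcon
  set Ω := Fintype.card (Fin T → Fin d → Pool.Agent.Lib_helper20.LG.Av.Q n) with hΩ
  have hΩ0 : 0 < Ω := Fintype.card_pos
  -- the bad families
  set B : Finset (Fin T → Fin d → Pool.Agent.Lib_helper20.LG.Av.Q n) := univ.filter (fun P =>
    ¬ RectFree (off (fun t i => (P t i).1) (fun t i => (P t i).2)) m) with hB
  have hBcard : 2 ^ T * B.card ≤ 2 ^ (4 * n ^ 2 + n) * Ω := by
    set I := (univ : Finset (Finset (Fin n) × (Fin m → Fin n → Bool) × (Fin m → Fin n → Bool))).filter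
      (fun i => (Av.Zof i).card = 2 ^ d) with hI
    have h1 : B ⊆ I.biUnion (fun i => univ.filter
        (fun P : Fin T → Fin d → Pool.Agent.Lib_helper20.LG.Av.Q n => ∀ t, ∀ z ∈ Av.Zof i, Av.hit z (P t) = false)) := by
      intro P hP
      rw [hB, mem_filter] at hP
      obtain ⟨i, hi1, hi2⟩ := rect' hmm P hP.2
      rw [mem_biUnion]
      refine ⟨i, ?_, ?_⟩
      · rw [hI, mem_filter]; exact ⟨mem_univ _, hi1⟩
      · rw [mem_filter]; exact ⟨mem_univ _, hi2⟩
    have h2 : 2 ^ T * B.card ≤ ∑ i ∈ I, Ω := by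
      refine (Nat.mul_le_mul_left _ ((card_le_card h1).trans card_biUnion_le)).trans ?_
      rw [Finset.mul_sum]
      refine Finset.sum_le_sum fun i hi => ?_
      exact Av.card_missT _ (mem_filter.mp hi).2
    rw [Finset.sum_const, smul_eq_mul] at h2
    refine h2.trans (Nat.mul_le_mul_right _ ?_)
    refine (card_filter_le _ _).trans ?_
    rw [card_univ]
    simp only [Fintype.card_prod, Fintype.card_finset, Fintype.card_fin, Fintype.card_fun,
      Fintype.card_bool]
    rw [← pow_mul, ← pow_add, ← pow_add]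
    refine Nat.pow_le_pow_right (by norm_num) ?_
    nlinarith
  -- the sum of the numbers of accepted points
  set acc : (Fin T → Fin d → Pool.Agent.Lib_helper20.LG.Av.Q n) → ℕ := fun P =>
    (univ.filter (fun b => off (fun t i => (P t i).1) (fun t i => (P t i).2) b = true)).card
    with hacc
  have hup : ∀ P, 2 ^ 12 * acc P ≤ (if P ∈ B then 2 ^ 12 * 2 ^ n else 0) + 2 ^ n := by
    intro P
    by_cases hP : P ∈ B
    · rw [if_pos hP]
      have : acc P ≤ 2 ^ n := by
        refine (card_filter_le _ _).trans ?_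
        rw [card_univ]; simp
      have := Nat.mul_le_mul_left (2 ^ 12) this
      omega
    · rw [if_neg hP, zero_add]
      rw [hB, mem_filter, not_and, not_not] at hP
      exact (hcon _ _ (hP (mem_univ _))).le
  have hsum1 : 2 ^ 12 * ∑ P, acc P ≤ B.card * (2 ^ 12 * 2 ^ n) + Ω * 2 ^ n := by
    rw [Finset.mul_sum]
    refine (Finset.sum_le_sum (fun P _ => hup P)).trans ?_
    rw [Finset.sum_add_distrib, Finset.sum_ite_mem, Finset.univ_inter, Finset.sum_const,
      Finset.sum_const, smul_eq_mul, smul_eq_mul, card_univ]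
  have hoff : ∀ b : Fin n → Bool, Ω ≤ 2 ^ 10 *
      (univ.filter (fun P : Fin T → Fin d → Pool.Agent.Lib_helper20.LG.Av.Q n => ∀ t, Av.hit b (P t) = false)).card := by
    intro b
    rw [Av.card_offT, hΩ, Fintype.card_fun (α := Fin T), Fintype.card_fin, Av.card_P, mul_pow,
      mul_pow, ← mul_assoc]
    refine Nat.mul_le_mul_right _ ?_
    refine Av.frac (E := 2 ^ (2 * Nat.log 2 n + 1)) ?_ (by positivity) ?_
    · rw [hd, hL, ← pow_succ']
      congr 1
    · rw [hTn]; omega
  have hsum2 : 2 ^ n * Ω ≤ 2 ^ 11 * ∑ P, acc P := by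
    have e1 : ∑ P, acc P = ∑ b : Fin n → Bool,
        (univ.filter (fun P : Fin T → Fin d → Pool.Agent.Lib_helper20.LG.Av.Q n => ∀ t, Av.hit b (P t) = false)).card := by
      have e2 : ∀ P, acc P = ∑ b : Fin n → Bool,
          if (∀ t, Av.hit b (P t) = false) then 1 else 0 := by
        intro P
        rw [← card_filter]
        simp only [hacc]
        refine congrArg Finset.card (Finset.filter_congr fun b _ => ?_)
        simp only [off, decide_eq_true_eq]
        rfl
      rw [Finset.sum_congr rfl (fun P _ => e2 P), Finset.sum_comm]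
      refine Finset.sum_congr rfl fun b _ => ?_
      rw [← card_filter]
    have e3 : 2 ^ n * Ω ≤ 2 ^ 10 * ∑ P, acc P := by
      have e4 : ∑ _b : Fin n → Bool, Ω = 2 ^ n * Ω := by
        rw [Finset.sum_const, smul_eq_mul, card_univ, Fintype.card_fun, Fintype.card_bool,
          Fintype.card_fin]
      rw [e1, Finset.mul_sum, ← e4]
      exact Finset.sum_le_sum (fun b _ => hoff b)
    omega
  -- conclusion
  have f1 : 2 ^ n * Ω ≤ 2 ^ n * (2 ^ 12 * B.card) := by
    have : 2 ^ 12 * ∑ P, acc P = 2 * (2 ^ 11 * ∑ P, acc P) := by ring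
    rw [this] at hsum1
    have h3 : B.card * (2 ^ 12 * 2 ^ n) = 2 ^ n * (2 ^ 12 * B.card) := by ring
    have h4 : Ω * 2 ^ n = 2 ^ n * Ω := by ring
    rw [h3, h4] at hsum1
    omega
  have f2 : Ω ≤ 2 ^ 12 * B.card := Nat.le_of_mul_le_mul_left f1 (by positivity)
  have f3 : 2 ^ (4 * n ^ 2 + n) * (2 ^ 13 * B.card) ≤ 2 ^ (4 * n ^ 2 + n) * Ω := by
    refine le_trans ?_ hBcard
    rw [← mul_assoc, ← pow_add]
    refine Nat.mul_le_mul_right _ (Nat.pow_le_pow_right (by norm_num) ?_)
    rw [hTn]
    nlinarith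
  have f4 : 2 ^ 13 * B.card ≤ Ω := Nat.le_of_mul_le_mul_left f3 (by positivity)
  omega

end Pool.Agent.Lib_helper26.AC
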